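import Pool.Agent.helper81.LC.Prog

/-!
# LC-5: programs are polynomial-time computable functions

`runs_init`: from `oneStack .inp w` to `repS w 0 0 [] []`. `runs_fin`: from `repS w A ρ [] []` with
`ρ = 0` to `oneStack .out (the first ℓ cells of A o)` with final register `none`.  Then
`Pool.Agent.helper64.LP.compile` with `k₀ = .inp`, `k₁ = .out`, `e₀ = e₁ = Equiv.refl Bool`, `v₀ = none`.
The loop `whT .ev (step1 (.A o) .t1)`: `runs_whT`; after `j` rounds the first `min j N` cells are on
`t1`, reversed.
-/

set_option autoImplicit false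

namespace Pool.Agent.helper81.LC

open Pool.Agent.helper64.LP (Cmd Ev PolyTime oneStack)
open Function (update)

variable {nv na : ℕ}

/-! ## The initial part -/

/-- the state during the set-up: the arrays with number in `P` have been created -/
def iniS (w : List Bool) (P : List (Fin na)) : Sk nv na
  | .inp => w
  | .out => []
  | .ev => []
  | .t1 => []
  | .t2 => []
  | .t3 => []
  | .bb => []
  | .sz => List.replicate w.length true
  | .X _ => []
  | .A a => if a ∈ P then List.replicate w.length false else []

/-- one array is created -/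
theorem runs_ini_one (w : List Bool) (P : List (Fin na)) (a : Fin na) (ha : a ∉ P) :
    RunsE (seqs [whT .sz (seqs [pushc .t1 true, pushc (.A a) false]), mv .t1 .sz])
      (iniS (nv := nv) w P) (iniS w (a :: P)) (12 * w.length + 10) := by
  obtain ⟨n, hn⟩ : ∃ n, n = w.length := ⟨_, rfl⟩
  -- the loop
  let W : ℕ → Sk nv na := fun i =>
    update (update (update (iniS w P) .sz (List.replicate i true)) .t1
      (List.replicate (n - i) true)) (.A a) (List.replicate (n - i) false)
  have hW0 : W n = iniS w P := by
    funext k
    cases k <;> simp [W, iniS, update, hn]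
    rename_i a'
    by_cases h : a' = a
    · subst h; simp [ha]
    · simp [h]
  have hloop := runs_whT (c := seqs [pushc .t1 true, pushc (.A a) false]) (t := 5)
    (k := (.sz : K nv na)) n W [] (by simp) (by intro i _; simp [W, update]) (by
      intro i hi
      refine runs_conv (runs_cons (runs_pushc _ _ _) (runs_cons (runs_pushc _ _ _)
        (runs_nil _))) ?_ (by omega)
      have hni : n - i = (n - (i + 1)) + 1 := by omega
      funext k
      cases k <;> simp [W, iniS, update, hni, List.replicate_succ]
      rename_i a'
      by_cases h : a' = a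
      · subst h; simp
      · simp [h])
  have h2 : RunsE (mv (K.t1 : K nv na) .sz) (update (W 0) .sz [].tail)
      (iniS w (a :: P)) (4 * n + 3) := by
    refine runs_conv (runs_mv (by simp) n [] (by simp) ?_) ?_ le_rfl
    · simp [W, update]
    · funext k
      cases k <;> simp [W, iniS, update, hn]
      rename_i a'
      by_cases h : a' = a
      · subst h; simp
      · simp [h]
  rw [← hW0]
  exact runs_conv (runs_cons hloop (runs_cons h2 (runs_nil _))) rfl (by omega)

/-- all arrays of a list are created -/
theorem runs_ini_list (w : List Bool) : ∀ (L P : List (Fin na)), L.Nodup → (∀ a ∈ L, a ∉ P) →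
    RunsE (seqs (L.map fun a =>
      seqs [whT .sz (seqs [pushc .t1 true, pushc (.A a) false]), mv .t1 .sz]))
      (iniS (nv := nv) w P) (iniS w (L.reverse ++ P)) (L.length * (12 * w.length + 11) + 1)
  | [], P, _, _ => by
    simpa using runs_nil (iniS (nv := nv) w P)
  | a :: L, P, hL, hP => by
    have ih := runs_ini_list w L (a :: P) (List.nodup_cons.1 hL).2 (by
      intro b hb hb'
      rcases List.mem_cons.1 hb' with rfl | hb'
      · exact (List.nodup_cons.1 hL).1 hb
      · exact hP b (List.mem_cons_of_mem _ hb) hb')
    rw [List.map_cons]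
    refine runs_conv (runs_cons (runs_ini_one w P a (hP a (List.mem_cons_self))) ih) ?_ ?_
    · simp
    · simp only [List.length_cons]
      ring_nf
      omega

theorem runs_init (nv na : ℕ) : ∃ T : ℕ → ℕ, Pb T ∧ ∀ w : List Bool,
    RunsE (initc nv na) (oneStack K.inp w)
      (repS w (fun _ _ => false) (fun _ => 0) [] []) (T w.length) := by
  refine ⟨fun n => (10 * n + 3) + ((4 * n + 3) + (na * (12 * n + 11) + 1) + 1) + 1, ?_, ?_⟩
  · exact ((((Pb.const 10).mul Pb.id).add (Pb.const 3)).add (((((Pb.const 4).mul Pb.id).add
      (Pb.const 3)).add (((Pb.const na).mul (((Pb.const 12).mul Pb.id).add (Pb.const 11))).add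
      (Pb.const 1))).add (Pb.const 1))).add (Pb.const 1)
  · intro w
    obtain ⟨S0, hS0⟩ : ∃ S0 : Sk nv na, S0 = oneStack K.inp w := ⟨_, rfl⟩
    rw [← hS0]
    have h1 := runs_each_inp S0
    have h2 := runs_mva (k := (K.t1 : K nv na)) (k' := .inp) (by simp)
      (update (update (update S0 .inp []) .t1 ((S0 .inp).reverse ++ S0 .t1)) .sz
        (List.replicate (S0 .inp).length true ++ S0 .sz))
    have h3 := runs_ini_list (nv := nv) w (List.finRange na) [] (List.nodup_finRange na) (by simp)
    have hS : update (update (update (update (update S0 .inp []) .t1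
        ((S0 .inp).reverse ++ S0 .t1)) .sz
        (List.replicate (S0 .inp).length true ++ S0 .sz)) .t1 []) .inp
        (((update (update (update S0 .inp []) .t1
        ((S0 .inp).reverse ++ S0 .t1)) .sz
        (List.replicate (S0 .inp).length true ++ S0 .sz)) .t1).reverse ++
          (update (update (update S0 .inp []) .t1
        ((S0 .inp).reverse ++ S0 .t1)) .sz
        (List.replicate (S0 .inp).length true ++ S0 .sz)) .inp) = iniS w [] := by
      funext k
      cases k <;> simp [iniS, update, hS0, oneStack]
    rw [hS] at h2
    unfold initc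
    refine runs_conv (runs_cons h1 (runs_cons h2 h3)) ?_ ?_
    · funext k
      cases k <;> simp [iniS, repS, List.map_const']
    · simp [hS0, oneStack]

/-! ## The final part -/

/-- the last command sets the register to `none` -/
theorem ev_append_load : ∀ (L : List (Cm nv na)) (v v' : Option Bool) (S S' : Sk nv na) (n : ℕ),
    Ev (seqs L) v S v' S' n →
      ∃ m ≤ n + 2, Ev (seqs (L ++ [.load fun _ => none])) v S none S' m
  | [], v, v', S, S', n, h => by
    unfold seqs nop at h
    cases h
    refine ⟨1 + 1 + 1, le_rfl, ?_⟩
    exact Ev.seq _ _ _ _ _ _ _ _ _ _ (Ev.load _ _ _) (Ev.load _ _ _)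
  | c :: L, v, v', S, S', n, h => by
    unfold seqs at h
    cases h with
    | seq _ _ _ v1 _ _ S1 _ n1 n2 h1 h2 =>
      obtain ⟨m, hm, h3⟩ := ev_append_load L v1 v' S1 S' n2 h2
      exact ⟨n1 + m + 1, by omega, Ev.seq _ _ _ _ _ _ _ _ _ _ h1 h3⟩

/-- arrays are emptied -/
theorem runs_clr_list (N : ℕ) : ∀ (L : List (Fin na)) (S : Sk nv na),
    (∀ a, (S (.A a)).length ≤ N) →
    RunsE (seqs (L.map fun a => clra (.A a))) S
      (fun k => match k with
        | .A a => if a ∈ L then [] else S (.A a)
        | k => S k) (L.length * (4 * N + 4) + 1)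
  | [], S, _ => by
    refine runs_conv (runs_nil S) ?_ (by simp)
    funext k
    cases k <;> simp
  | a :: L, S, hS => by
    have ih := runs_clr_list N L (update S (.A a) []) (by
      intro b
      by_cases h : b = a
      · subst h; simp
      · simpa [update, h] using hS b)
    rw [List.map_cons]
    refine runs_conv (runs_cons (runs_clra (.A a) S) ih) ?_ ?_
    · funext k
      cases k <;> simp [update]
      rename_i b
      by_cases h : b = a
      · subst h; simp
      · simp [h]
    · have := hS a
      simp only [List.length_cons]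
      have h4 : (L.length + 1) * (4 * N + 4) = L.length * (4 * N + 4) + (4 * N + 4) := by ring
      rw [h4]
      omega

/-- composition of lists of commands -/
theorem runs_append {S S' S'' : Sk nv na} {t t' : ℕ} : ∀ {L M : List (Cm nv na)},
    RunsE (seqs L) S S' t → RunsE (seqs M) S' S'' t' → RunsE (seqs (L ++ M)) S S'' (t + t')
  | L, M, h, h' => by
    intro v
    obtain ⟨v1, n1, hn1, e1⟩ := h v
    obtain ⟨v2, n2, hn2, e2⟩ := h' v1
    have key : ∀ (L : List (Cm nv na)) (v v1 : Option Bool) (S S' : Sk nv na) (n1 : ℕ),
        Ev (seqs L) v S v1 S' n1 → ∀ (v2 : Option Bool) (S'' : Sk nv na) (n2 : ℕ),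
          Ev (seqs M) v1 S' v2 S'' n2 → ∃ m ≤ n1 + n2, Ev (seqs (L ++ M)) v S v2 S'' m := by
      intro L
      induction L with
      | nil =>
        intro v v1 S S' n1 e1 v2 S'' n2 e2
        unfold seqs nop at e1
        cases e1
        exact ⟨n2, by omega, e2⟩
      | cons c L ih =>
        intro v v1 S S' n1 e1 v2 S'' n2 e2
        unfold seqs at e1
        cases e1 with
        | seq _ _ _ u1 _ _ U1 _ a1 a2 f1 f2 =>
          obtain ⟨m, hm, e3⟩ := ih _ _ _ _ _ f2 _ _ _ e2
          exact ⟨a1 + m + 1, by omega, Ev.seq _ _ _ _ _ _ _ _ _ _ f1 e3⟩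
    obtain ⟨m, hm, e3⟩ := key L v v1 S S' n1 e1 v2 S'' n2 e2
    exact ⟨v2, m, by omega, e3⟩

/-- the state of the output loop: `j` cells of array `o` have been moved to `t1` -/
def outS (w : List Bool) (A : Fin na → ℕ → Bool) (o : Fin na) (i j : ℕ) : Sk nv na :=
  update (update (update (repS w A (fun _ => 0) [] []) .ev (List.replicate i true ++ [false])) (.A o)
    (((List.range w.length).map (A o)).drop j)) .t1 (((List.range w.length).map (A o)).take j).reverse

theorem runs_fin (o : Fin na) (ℓ : Tm nv na) : ∃ T : ℕ → ℕ, Pb T ∧
    ∀ (w : List Bool) (A : Fin na → ℕ → Bool) (v : Option Bool), ∃ n ≤ T w.length,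
      Ev (finc o ℓ) v (repS w A (fun _ => 0) [] []) none
        (oneStack K.out (((List.range w.length).map (A o)).take (val w A (fun _ => 0) ℓ))) n := by
  obtain ⟨Tℓ, B, hT, hB, hℓ⟩ := runs_cT ℓ
  refine ⟨fun n => Tℓ n + (B n * 7 + (4 * n + (4 * n + (4 * n + (na * (4 * n + 4) + 30))))), ?_, ?_⟩
  · have h4 : Pb fun n => 4 * n := (Pb.const 4).mul Pb.id
    exact hT.add ((hB.mul (Pb.const 7)).add (h4.add (h4.add (h4.add
      (((Pb.const na).mul (h4.add (Pb.const 4))).add (Pb.const 30))))))
  · intro w A v
    obtain ⟨hval, hrun⟩ := hℓ w A (fun _ => 0) [] [] (fun i => Nat.zero_le _)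
    obtain ⟨j, hj⟩ : ∃ j, j = val w A (fun _ => 0) ℓ := ⟨_, rfl⟩
    rw [← hj] at hval hrun ⊢
    obtain ⟨l, hl⟩ : ∃ l, l = (List.range w.length).map (A o) := ⟨_, rfl⟩
    have hll : l.length = w.length := by rw [hl]; simp
    -- the loop
    let W : ℕ → Sk nv na := fun i => outS w A o i (j - i)
    have hWj : W j = repS w A (fun _ => 0) [] (nm j ++ []) := by
      funext k
      cases k <;> simp [W, outS, repS, update, nm]
      rename_i a
      intro h
      subst h
      intro _ _
      rfl
    have hloop := runs_whT (c := step1 (.A o) .t1) (t := 4) (k := (.ev : K nv na)) j W [false]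
      (by simp) (by intro i _; simp [W, outS, update]) (by
        intro i hi
        refine runs_conv (runs_step1 (by simp) _) ?_ le_rfl
        have hji : j - i = (j - (i + 1)) + 1 := by omega
        obtain ⟨q, hq⟩ : ∃ q, q = j - (i + 1) := ⟨_, rfl⟩
        simp only [W]
        rw [hji, ← hq]
        funext k
        cases k <;> simp [outS, update, ← hl]
        · -- t1
          rw [List.take_add_one, List.reverse_append]
          cases l[q]? <;> simp
        · rename_i a
          by_cases h : a = o
          · simp [h]
          · simp [h])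
    rw [hWj] at hloop
    have h3 := runs_mva (k := (K.t1 : K nv na)) (k' := .out) (by simp) (update (W 0) .ev [false].tail)
    have h4 := runs_clra (K.inp : K nv na) (update (update (update (W 0) .ev [false].tail) .t1 []) .out
      (((update (W 0) .ev [false].tail) .t1).reverse ++ (update (W 0) .ev [false].tail) .out))
    have h5 := runs_clra (K.sz : K nv na) (update (update (update (update (W 0) .ev [false].tail)
      .t1 []) .out
      (((update (W 0) .ev [false].tail) .t1).reverse ++ (update (W 0) .ev [false].tail) .out)) .inp [])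
    have h6 := runs_clr_list w.length (List.finRange na) (update (update (update (update (update (W 0)
      .ev [false].tail) .t1 []) .out
      (((update (W 0) .ev [false].tail) .t1).reverse ++ (update (W 0) .ev [false].tail) .out)) .inp [])
      .sz []) (by
        intro a
        by_cases h : a = o
        · subst h
          simp [update, W, outS]
        · simp [update, W, outS, repS, h])
    have hall := runs_append (L := [cT ℓ, whT .ev (step1 (.A o) .t1), mva .t1 .out, clra .inp,
      clra .sz]) (runs_cons hrun (runs_cons hloop (runs_cons h3 (runs_cons h4 (runs_cons h5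
        (runs_nil _)))))) h6
    obtain ⟨v', n, hn, hev⟩ := hall v
    obtain ⟨m, hm, hev2⟩ := ev_append_load _ _ _ _ _ _ hev
    refine ⟨m, ?_, ?_⟩
    · have e1 : (update (W 0) K.ev [false].tail K.t1).length ≤ w.length := by
        simp [update, W, outS]
      have e2 : ((update (update (update (W 0) K.ev [false].tail) K.t1 []) K.out
        (((update (W 0) K.ev [false].tail) K.t1).reverse ++
          (update (W 0) K.ev [false].tail) K.out)) K.inp).length ≤ w.length := by
        simp [update, W, outS, repS]
      have e3 : ((update (update (update (update (W 0) K.ev [false].tail)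
        K.t1 []) K.out (((update (W 0) K.ev [false].tail) K.t1).reverse ++
          (update (W 0) K.ev [false].tail) K.out)) K.inp []) K.sz).length ≤ w.length := by
        simp [update, W, outS, repS]
      rw [List.length_finRange] at hn
      have e4 : j * (4 + 3) ≤ B w.length * 7 := Nat.mul_le_mul_right 7 hval
      simp only
      omega
    · have hfin : (fun k => match k with
          | .A a => if a ∈ List.finRange na then [] else (update (update (update (update (update (W 0)
      .ev [false].tail) .t1 []) .out
      (((update (W 0) .ev [false].tail) .t1).reverse ++ (update (W 0) .ev [false].tail) .out)) .inp [])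
      .sz []) (.A a)
          | k => (update (update (update (update (update (W 0)
      .ev [false].tail) .t1 []) .out
      (((update (W 0) .ev [false].tail) .t1).reverse ++ (update (W 0) .ev [false].tail) .out)) .inp [])
      .sz []) k : Sk nv na) = oneStack K.out (l.take j) := by
        funext k
        cases k <;> simp [update, W, outS, repS, oneStack, ← hl]
      rw [hfin] at hev2
      rw [← hl]
      exact hev2

/-- MAIN THEOREM: the function computed by a program is computable in polynomial time. -/
theorem polyTime_outp (p : Pr nv na) (o : Fin na) (ℓ : Tm nv na) : PolyTime (outp p o ℓ) := by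
  obtain ⟨T1, hT1, h1⟩ := runs_init nv na
  obtain ⟨T2, hT2, h2⟩ := runs_cP p
  obtain ⟨T3, hT3, h3⟩ := runs_fin o ℓ
  obtain ⟨A, D, hAD⟩ := (hT1.add (hT2.add hT3)).add (Pb.const 10)
  refine Pool.Agent.helper64.LP.compile (fun _ : K nv na => Bool) (Option Bool) .inp .out
    (Equiv.refl Bool) (Equiv.refl Bool) none (allc p o ℓ) (outp p o ℓ) A D ?_
  intro w
  obtain ⟨v1, n1, hn1, e1⟩ := h1 w none
  obtain ⟨v2, n2, hn2, e2⟩ := h2 w (fun _ _ => false) (fun _ => 0) [] (fun i => Nat.zero_le _) v1
  obtain ⟨n3, hn3, e3⟩ := h3 w (run w p (fun _ => 0) (fun _ _ => false)) v2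
  refine ⟨n1 + (n2 + (n3 + 1 + 1) + 1) + 1, ?_, ?_⟩
  · have := hAD w.length
    simp only at this
    omega
  · have hid : ∀ l : List Bool, l.map (Equiv.refl Bool).symm = l := by
      intro l
      simp
    rw [hid, hid]
    exact Ev.seq _ _ _ _ _ _ _ _ _ _ e1 (Ev.seq _ _ _ _ _ _ _ _ _ _ e2
      (Ev.seq _ _ _ _ _ _ _ _ _ _ e3 (Ev.load _ _ _)))

end Pool.Agent.helper81.LC
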