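import Pool.Agent.helper22.LP.Compile

/-!
# LC: a language of loop programs with counting terms, compiled to polynomial-time machines

The input is a list `w` of bits, `N = w.length`.  The memory consists of `na` arrays of `N` bits.
Terms have natural number values; `sum i t` is `∑_{x < N} t` with `i := x`. Programs update arrays
pointwise (`upd`), loop over `x = N - 1, …, 0` (`loop`) and branch (`ite`).
-/

set_option autoImplicit false

namespace Pool.Agent.helper81.LC

open Pool.Agent.helper64.LP (Cmd Ev)

/-! ## Terms and programs -/

/-- Counting terms. -/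
inductive Tm (nv na : ℕ) : Type
  | num (c : ℕ) : Tm nv na
  | size : Tm nv na
  | var (i : Fin nv) : Tm nv na
  | inp (t : Tm nv na) : Tm nv na
  | arr (a : Fin na) (t : Tm nv na) : Tm nv na
  | add (s t : Tm nv na) : Tm nv na
  | mul (s t : Tm nv na) : Tm nv na
  | sub (s t : Tm nv na) : Tm nv na
  | lt (s t : Tm nv na) : Tm nv na
  | sum (i : Fin nv) (t : Tm nv na) : Tm nv na

/-- Programs. -/
inductive Pr (nv na : ℕ) : Type
  | skip : Pr nv na
  | upd (a : Fin na) (i : Fin nv) (t : Tm nv na) : Pr nv na
  | seq (p q : Pr nv na) : Pr nv na
  | loop (i : Fin nv) (p : Pr nv na) : Pr nv na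
  | ite (t : Tm nv na) (p q : Pr nv na) : Pr nv na

variable {nv na : ℕ}

/-- a bit as a number -/
def b2n (b : Bool) : ℕ := if b then 1 else 0

/-- The value of a term; `w` is the input, `A` the arrays, `ρ` the variables. -/
def val (w : List Bool) (A : Fin na → ℕ → Bool) : (Fin nv → ℕ) → Tm nv na → ℕ
  | _, .num c => c
  | _, .size => w.length
  | ρ, .var i => ρ i
  | ρ, .inp t => b2n (w.getD (val w A ρ t) false)
  | ρ, .arr a t => b2n (decide (val w A ρ t < w.length) && A a (val w A ρ t))
  | ρ, .add s t => val w A ρ s + val w A ρ t
  | ρ, .mul s t => val w A ρ s * val w A ρ t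
  | ρ, .sub s t => val w A ρ s - val w A ρ t
  | ρ, .lt s t => if val w A ρ s < val w A ρ t then 1 else 0
  | ρ, .sum i t => ∑ x ∈ Finset.range w.length, val w A (Function.update ρ i x) t

/-- downwards loop: `f (n - 1)`, then `f (n - 2)`, …, then `f 0` -/
def down {α : Type} (f : ℕ → α → α) : ℕ → α → α
  | 0, a => a
  | n + 1, a => down f n (f n a)

/-- The arrays after running a program. -/
def run (w : List Bool) : Pr nv na → (Fin nv → ℕ) → (Fin na → ℕ → Bool) → (Fin na → ℕ → Bool)
  | .skip, _, A => A
  | .upd a i t, ρ, A => Function.update A a fun x =>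
      decide (x < w.length ∧ 0 < val w A (Function.update ρ i x) t)
  | .seq p q, ρ, A => run w q ρ (run w p ρ A)
  | .loop i p, ρ, A => down (fun x A' => run w p (Function.update ρ i x) A') w.length A
  | .ite t p q, ρ, A => if 0 < val w A ρ t then run w p ρ A else run w q ρ A

/-- The output: the first `ℓ` entries of array `o` after running `p` from the zero state. -/
def outp (p : Pr nv na) (o : Fin na) (ℓ : Tm nv na) (w : List Bool) : List Bool :=
  ((List.range w.length).map (run w p (fun _ => 0) (fun _ _ => false) o)).take
    (val w (run w p (fun _ => 0) (fun _ _ => false)) (fun _ => 0) ℓ)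

/-! ## Stacks and commands -/

/-- The stacks. -/
inductive K (nv na : ℕ) : Type
  | inp
  | out
  | ev
  | t1
  | t2
  | t3
  | sz
  | bb
  | X (i : Fin nv)
  | A (a : Fin na)
  deriving DecidableEq, Fintype

/-- commands on the stacks with one register -/
abbrev Cm (nv na : ℕ) : Type := Cmd (fun _ : K nv na => Bool) (Option Bool)

/-- contents of the stacks -/
abbrev Sk (nv na : ℕ) : Type := K nv na → List Bool

/-- `c` started with register `v` leads from `S` to `S'` in time at most `t` -/
def RunsV (c : Cm nv na) (v : Option Bool) (S S' : Sk nv na) (t : ℕ) : Prop :=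
  ∃ v', ∃ n ≤ t, Ev c v S v' S' n

/-- `c` leads from `S` to `S'` in time at most `t`, whatever the register is -/
def RunsE (c : Cm nv na) (S S' : Sk nv na) (t : ℕ) : Prop := ∀ v, RunsV c v S S' t

/-- push a constant -/
def pushc (k : K nv na) (b : Bool) : Cm nv na := .push k fun _ => b

/-- push the register -/
def pushr (k : K nv na) : Cm nv na := .push k fun v => v.getD false

/-- pop into the register -/
def get (k : K nv na) : Cm nv na := .pop k fun _ o => o

/-- look at the top cell -/
def look (k : K nv na) : Cm nv na := .peek k fun _ o => o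

/-- if the top cell of `k` is `true` -/
def ifTop (k : K nv na) (c d : Cm nv na) : Cm nv na :=
  .seq (look k) (.ite (fun v => v == some true) c d)

/-- pop `k`; while the cell is `true`: `c`, pop `k` -/
def whT (k : K nv na) (c : Cm nv na) : Cm nv na :=
  .seq (get k) (.whl (fun v => v == some true) (.seq c (get k)))

/-- for each cell of `k` (in the register): `c` -/
def each (k : K nv na) (c : Cm nv na) : Cm nv na :=
  .seq (get k) (.whl (fun v => v.isSome) (.seq c (get k)))

/-- do nothing -/
def nop : Cm nv na := .load id

/-- sequential composition of a list of commands -/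
def seqs : List (Cm nv na) → Cm nv na
  | [] => nop
  | c :: cs => .seq c (seqs cs)

/-- move the `true` cells on top of `k` to `k'`, and remove the next cell of `k` -/
def mv (k k' : K nv na) : Cm nv na := whT k (pushc k' true)

/-- remove the `true` cells on top of `k`, and the next cell -/
def clr (k : K nv na) : Cm nv na := whT k nop

/-- move all cells of `k` to `k'` (reversing the order) -/
def mva (k k' : K nv na) : Cm nv na := each k (pushr k')

/-- empty the stack `k` -/
def clra (k : K nv na) : Cm nv na := each k nop

/-- push the number in the unary stack `k` (all cells `true`) on `ev` -/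
def cpy (k : K nv na) : Cm nv na :=
  seqs [pushc .ev false, whT k (seqs [pushc .t1 true, pushc .ev true]), mv .t1 k]

/-- push the number `c` on `ev` -/
def numc (c : ℕ) : Cm nv na := seqs (pushc .ev false :: List.replicate c (pushc .ev true))

/-- add the two numbers on top of `ev` -/
def addc : Cm nv na := seqs [mv .ev .t1, mv .t1 .ev]

/-- multiply the two numbers on top of `ev` -/
def mulc : Cm nv na := seqs [mv .ev .t1, mv .ev .t2, pushc .ev false,
  whT .t1 (seqs [whT .t2 (seqs [pushc .t3 true, pushc .ev true]), mv .t3 .t2]), clr .t2]

/-- subtract the number on top of `ev` from the next one -/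
def subc : Cm nv na := seqs [mv .ev .t1, whT .t1 (ifTop .ev (get .ev) nop)]

/-- compare: `1` if the number on top of `ev` is larger than the next one, otherwise `0` -/
def ltc : Cm nv na := seqs [mv .ev .t1, mv .ev .t2, whT .t2 (get .t1), pushc .ev false,
  ifTop .t1 (pushc .ev true) nop, clr .t1]

/-- move one cell of `k` to `k'` if there is one -/
def step1 (k k' : K nv na) : Cm nv na :=
  .seq (get k) (.ite (fun v => v.isSome) (pushr k') nop)

/-- replace the number `j` on top of `ev` by the cell number `j` of `k` -/
def lookup (k : K nv na) : Cm nv na := seqs [whT .ev (step1 k .t1), pushc .ev false,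
  ifTop k (pushc .ev true) nop, mva .t1 k]

/-- fill `X i` with the content of `sz` -/
def fillX (i : Fin nv) : Cm nv na :=
  seqs [whT .sz (seqs [pushc .t1 true, pushc (.X i) true]), mv .t1 .sz]

/-- the code of a term: push its value on `ev` -/
def cT : Tm nv na → Cm nv na
  | .num c => numc c
  | .size => cpy .sz
  | .var i => cpy (.X i)
  | .inp t => seqs [cT t, lookup .inp]
  | .arr a t => seqs [cT t, lookup (.A a)]
  | .add s t => seqs [cT s, cT t, addc]
  | .mul s t => seqs [cT s, cT t, mulc]
  | .sub s t => seqs [cT s, cT t, subc]
  | .lt s t => seqs [cT s, cT t, ltc]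
  | .sum i t => seqs [pushc .ev false, mv (.X i) .ev, pushc .ev false, fillX i,
      whT (.X i) (seqs [cT t, addc]), mv .ev .t1, mv .ev (.X i), pushc .ev false, mv .t1 .ev]

/-- the code of a program -/
def cP : Pr nv na → Cm nv na
  | .skip => nop
  | .upd a i t => seqs [pushc .ev false, mv (.X i) .ev, fillX i,
      whT (.X i) (seqs [cT t, ifTop .ev (pushc .bb true) (pushc .bb false), clr .ev]),
      mv .ev (.X i), clra (.A a), mva .bb .t1, mva .t1 (.A a)]
  | .seq p q => seqs [cP p, cP q]
  | .loop i p => seqs [pushc .ev false, mv (.X i) .ev, fillX i, whT (.X i) (cP p), mv .ev (.X i)]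
  | .ite t p q => seqs [cT t, ifTop .ev (seqs [clr .ev, cP p]) (seqs [clr .ev, cP q])]

/-! ## The representation of the state, and the main command -/

/-- the number `c` on a stack -/
def nm (c : ℕ) : List Bool := List.replicate c true ++ [false]

/-- the state with input `w`, arrays `A`, variables `ρ`, stack `bb`, evaluation stack `l` -/
def repS (w : List Bool) (A : Fin na → ℕ → Bool) (ρ : Fin nv → ℕ) (b l : List Bool) : Sk nv na
  | .inp => w
  | .out => []
  | .ev => l
  | .t1 => []
  | .t2 => []
  | .t3 => []
  | .bb => b
  | .sz => List.replicate w.length true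
  | .X i => List.replicate (ρ i) true
  | .A a => (List.range w.length).map (A a)

/-- polynomially bounded functions -/
def Pb (f : ℕ → ℕ) : Prop := ∃ c d, ∀ n, f n ≤ c * (n + 1) ^ d

/-- set up the stack `sz` and the arrays -/
def initc (nv na : ℕ) : Cm nv na := seqs
  ([each .inp (seqs [pushr .t1, pushc .sz true]), mva .t1 .inp] ++
    (List.finRange na).map fun a =>
      seqs [whT .sz (seqs [pushc .t1 true, pushc (.A a) false]), mv .t1 .sz])

/-- output the first `ℓ` cells of array `o`, empty all other stacks -/
def finc (o : Fin na) (ℓ : Tm nv na) : Cm nv na := seqs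
  ([cT ℓ, whT .ev (step1 (.A o) .t1), mva .t1 .out, clra .inp, clra .sz] ++
    ((List.finRange na).map fun a => clra (.A a)) ++ [.load fun _ => none])

/-- the whole code -/
def allc (p : Pr nv na) (o : Fin na) (ℓ : Tm nv na) : Cm nv na :=
  seqs [initc nv na, cP p, finc o ℓ]

end Pool.Agent.helper81.LC
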