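import Pool.Agent.helper81.LC.Base

/-!
# LC-2: rules for arithmetic on the evaluation stack

`nm c = true^c ++ [false]`.  All of these are compositions of the rules of `Base.lean`; the equality of
the final states is proved by `funext k`, `cases k`, `simp` (or `by_cases` on `k`).
For `mulc`: the outer loop is `runs_whT` with `W i` = the state with `i` cells on `t1`, `t2 = true^a`,
`ev = true^((b - i) * a) ++ false :: l`.
-/

set_option autoImplicit false

namespace Pool.Agent.helper81.LC

open Pool.Agent.helper64.LP (Cmd Ev)
open Function (update)

variable {nv na : ℕ} {S : Sk nv na}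

/-- the states of the loop of `cpy` -/
def arithCpyW (S : Sk nv na) (k : K nv na) (j i : ℕ) : Sk nv na :=
  update (update (update S k (List.replicate i true)) .t1 (List.replicate (j - i) true)) .ev
    (List.replicate (j - i) true ++ false :: S .ev)

theorem runs_cpy {k : K nv na} (hk : k ≠ .ev) (hk1 : k ≠ .t1) (h1 : S .t1 = []) {j : ℕ}
    (h : S k = List.replicate j true) :
    RunsE (cpy k) S (update S .ev (nm j ++ S .ev)) (20 * j + 20) := by
  have hev : (K.ev : K nv na) ≠ .t1 := by simp
  have r1 := runs_pushc .ev false S
  have r2 : RunsE (whT k (seqs [pushc .t1 true, pushc .ev true])) (arithCpyW S k j j)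
      (update (arithCpyW S k j 0) k []) (j * (5 + 3) + 3) := by
    refine runs_whT j (arithCpyW S k j) [] (by simp) ?_ ?_
    · intro i _
      simp [arithCpyW, Function.update_of_ne hk, Function.update_of_ne hk1]
    · intro i hi
      have b1 := runs_pushc .t1 true
        (update (arithCpyW S k j (i + 1)) k (List.replicate i true ++ []))
      have b2 := runs_pushc .ev true (update (update (arithCpyW S k j (i + 1)) k
        (List.replicate i true ++ [])) .t1
          (true :: (update (arithCpyW S k j (i + 1)) k (List.replicate i true ++ [])) .t1))
      refine runs_conv (runs_cons b1 (runs_cons b2 (runs_nil _))) ?_ (by omega)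
      have e1 : j - i = (j - (i + 1)) + 1 := by omega
      funext x
      by_cases hx : x = .ev
      · subst hx
        simp [arithCpyW, hk.symm, e1, List.replicate_succ]
      · by_cases hx1 : x = .t1
        · subst hx1
          simp [arithCpyW, hk1.symm, e1, List.replicate_succ]
        · by_cases hx2 : x = k
          · subst hx2
            simp [arithCpyW, hk, hk1]
          · simp [arithCpyW, hx, hx1, hx2]
  have r3 := runs_mv (k := .t1) (k' := k) (S := update (arithCpyW S k j 0) k []) hk1.symm j []
    (by simp) (by simp [arithCpyW, hk1.symm])
  have e0 : arithCpyW S k j j = update S .ev (false :: S .ev) := by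
    funext x
    by_cases hx : x = .ev
    · subst hx
      simp [arithCpyW]
    · by_cases hx1 : x = .t1
      · subst hx1
        simp [arithCpyW, h1]
      · by_cases hx2 : x = k
        · subst hx2
          simp [arithCpyW, hk, hk1, h]
        · simp [arithCpyW, hx, hx1, hx2]
  rw [e0] at r2
  refine runs_conv (runs_cons r1 (runs_cons r2 (runs_cons r3 (runs_nil _)))) ?_ (by omega)
  funext x
  by_cases hx : x = .ev
  · subst hx
    simp [arithCpyW, hk.symm, nm]
  · by_cases hx1 : x = .t1
    · subst hx1
      simp [arithCpyW, hk1.symm, h1]
    · by_cases hx2 : x = k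
      · subst hx2
        simp [arithCpyW, hk, h]
      · simp [arithCpyW, hx, hx1, hx2]

theorem arith_pushes (c : ℕ) : ∀ S : Sk nv na,
    RunsE (seqs (List.replicate c (pushc .ev true))) S
      (update S .ev (List.replicate c true ++ S .ev)) (2 * c + 1) := by
  induction c with
  | zero =>
    intro S
    refine runs_conv (runs_nil S) ?_ (by omega)
    simp
  | succ c ih =>
    intro S
    rw [List.replicate_succ]
    refine runs_conv (runs_cons (runs_pushc .ev true S) (ih _)) ?_ (by omega)
    rw [Function.update_idem, Function.update_self, List.replicate_succ']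
    simp

theorem runs_numc (c : ℕ) (S : Sk nv na) :
    RunsE (numc c) S (update S .ev (nm c ++ S .ev)) (3 * c + 5) := by
  have r1 := runs_pushc .ev false S
  have r2 := arith_pushes c (update S .ev (false :: S .ev))
  refine runs_conv (runs_cons r1 r2) ?_ (by omega)
  simp [nm]

theorem runs_addc {a b : ℕ} {l : List Bool} (h1 : S .t1 = []) (h : S .ev = nm b ++ (nm a ++ l)) :
    RunsE addc S (update S .ev (nm (a + b) ++ l)) (20 * (a + b) + 20) := by
  have r1 := runs_mv (k := .ev) (k' := .t1) (S := S) (by simp) b (false :: (nm a ++ l))
    (by simp) (by simp [h, nm])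
  have r2 := runs_mv (k := .t1) (k' := .ev)
    (S := update (update S .ev (false :: (nm a ++ l)).tail) .t1 (List.replicate b true ++ S .t1))
    (by simp) b [] (by simp) (by simp [h1])
  refine runs_conv (runs_cons r1 (runs_cons r2 (runs_nil _))) ?_ (by omega)
  funext x
  by_cases hx : x = .ev
  · subst hx
    have e1 : update (update S K.ev (false :: (nm a ++ l)).tail) K.t1
        (List.replicate b true ++ S K.t1) K.ev = nm a ++ l := by simp
    rw [Function.update_self, Function.update_self, e1, nm, nm, ← List.append_assoc,
      ← List.append_assoc, List.replicate_append_replicate, add_comm b a]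
  · by_cases hx1 : x = .t1
    · subst hx1
      simp [h1]
    · simp [hx, hx1]

theorem runs_mulc {a b : ℕ} {l : List Bool} (h1 : S .t1 = []) (h2 : S .t2 = [])
    (h3 : S .t3 = []) (h : S .ev = nm b ++ (nm a ++ l)) :
    RunsE mulc S (update S .ev (nm (a * b) ++ l)) (40 * ((a + 1) * (b + 1)) + 40) := by
  -- the outer loop
  let W : ℕ → Sk nv na := fun m => update (update (update S .t1 (List.replicate m true)) .t2
    (List.replicate a true)) .ev (List.replicate ((b - m) * a) true ++ false :: l)
  have hW : ∀ m ≤ b, W m .t1 = List.replicate m true ++ [] := by
    intro m _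
    simp [W, Function.update_apply]
  have hbody : ∀ m < b, RunsE (seqs [whT .t2 (seqs [pushc .t3 true, pushc .ev true]), mv .t3 .t2])
      (update (W (m + 1)) .t1 (List.replicate m true ++ [])) (W m) (12 * a + 9) := by
    intro m hm
    let V : ℕ → Sk nv na := fun i => update (update (update (update S .t1 (List.replicate m true)) .t2
      (List.replicate i true)) .t3 (List.replicate (a - i) true)) .ev
      (List.replicate (a - i) true ++ (List.replicate ((b - (m + 1)) * a) true ++ false :: l))
    have hV : ∀ i ≤ a, V i .t2 = List.replicate i true ++ [] := by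
      intro i _
      simp [V, Function.update_apply]
    have hb2 : ∀ i < a, RunsE (seqs [pushc .t3 true, pushc .ev true])
        (update (V (i + 1)) .t2 (List.replicate i true ++ [])) (V i) 5 := by
      intro i hi
      have e : a - i = (a - (i + 1)) + 1 := by omega
      refine runs_conv (runs_cons (runs_pushc _ _ _) (runs_cons (runs_pushc _ _ _) (runs_nil _)))
        ?_ (by norm_num)
      funext k
      cases k <;> simp [V, e, List.replicate_succ, Function.update_apply]
    have h0 : update (W (m + 1)) .t1 (List.replicate m true ++ []) = V a := by
      funext k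
      cases k <;> simp [W, V, h3, Function.update_apply]
    have hmv : RunsE (mv .t3 .t2) (update (V 0) .t2 ([] : List Bool).tail) (W m) (4 * a + 3) := by
      refine runs_conv (runs_mv (k := .t3) (k' := .t2) (by simp) a [] (by simp) ?_) ?_ le_rfl
      · simp [V, Function.update_apply]
      · have e : (b - m) * a = a + (b - (m + 1)) * a := by
          have : b - m = (b - (m + 1)) + 1 := by omega
          rw [this]
          ring
        have er : List.replicate a true ++ (List.replicate ((b - (m + 1)) * a) true ++ false :: l) =
            List.replicate ((b - m) * a) true ++ false :: l := by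
          rw [e, List.replicate_add, List.append_assoc]
        funext k
        cases k <;> simp [W, V, h3, Function.update_apply]
        rw [er]
    have := runs_cons (runs_whT a V [] (by simp) hV hb2) (runs_cons hmv (runs_nil _))
    rw [← h0] at this
    exact runs_conv this rfl (by omega)
  let S1 : Sk nv na := update (update S .ev (nm a ++ l)) .t1 (List.replicate b true)
  let S2 : Sk nv na := update (update S1 .ev l) .t2 (List.replicate a true)
  have hs1 : RunsE (mv .ev .t1) S S1 (4 * b + 3) := by
    refine runs_conv (runs_mv (k := .ev) (k' := .t1) (by simp) b (false :: (nm a ++ l)) (by simp)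
      (by rw [h]; simp [nm])) ?_ le_rfl
    simp [S1, h1]
  have hs2 : RunsE (mv .ev .t2) S1 S2 (4 * a + 3) := by
    refine runs_conv (runs_mv (k := .ev) (k' := .t2) (by simp) a (false :: l) (by simp)
      (by simp [S1, nm])) ?_ le_rfl
    simp [S1, S2, h2]
  have hs3 : RunsE (pushc .ev false) S2 (W b) 1 := by
    refine runs_conv (runs_pushc .ev false _) ?_ le_rfl
    funext k
    cases k <;> simp [W, S1, S2, Function.update_apply]
  have hclr : RunsE (clr .t2) (update (W 0) .t1 ([] : List Bool).tail)
      (update S .ev (nm (a * b) ++ l)) (4 * a + 3) := by
    refine runs_conv (runs_clr (k := .t2) a [] (by simp) ?_) ?_ le_rfl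
    · simp [W, Function.update_apply]
    · funext k
      cases k <;> simp [W, h1, h2, Function.update_apply, nm, mul_comm]
  have := runs_cons hs1 (runs_cons hs2 (runs_cons hs3 (runs_cons
    (runs_whT b W [] (by simp) hW hbody) (runs_cons hclr (runs_nil _)))))
  refine runs_conv this rfl ?_
  nlinarith [Nat.zero_le a, Nat.zero_le b, Nat.zero_le (a * b)]

/-- the states of the loop of `subc` -/
def arithSubW (S : Sk nv na) (l : List Bool) (a b i : ℕ) : Sk nv na :=
  update (update S .ev (nm (a - (b - i)) ++ l)) .t1 (List.replicate i true)

theorem runs_subc {a b : ℕ} {l : List Bool} (h1 : S .t1 = []) (h : S .ev = nm b ++ (nm a ++ l)) :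
    RunsE subc S (update S .ev (nm (a - b) ++ l)) (20 * (a + b) + 20) := by
  have r1 := runs_mv (k := .ev) (k' := .t1) (S := S) (by simp) b (false :: (nm a ++ l))
    (by simp) (by simp [h, nm])
  have r2 : RunsE (whT .t1 (ifTop .ev (get .ev) nop)) (arithSubW S l a b b)
      (update (arithSubW S l a b 0) .t1 []) (b * (4 + 3) + 3) := by
    refine runs_whT b (arithSubW S l a b) [] (by simp) ?_ ?_
    · intro i _
      simp [arithSubW]
    · intro i hi
      by_cases hab : 0 < a - (b - (i + 1))
      · obtain ⟨m, hm⟩ : ∃ m, a - (b - (i + 1)) = m + 1 := ⟨a - (b - (i + 1)) - 1, by omega⟩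
        have hm' : a - (b - i) = m := by omega
        have g1 := runs_get .ev (update (arithSubW S l a b (i + 1)) .t1
          (List.replicate i true ++ []))
        refine runs_conv (runs_ifTop_true ?_ g1) ?_ (by omega)
        · simp [arithSubW, hm, nm, List.replicate_succ]
        · funext x
          by_cases hx : x = .ev
          · subst hx
            simp [arithSubW, hm, hm', nm, List.replicate_succ]
          · by_cases hx1 : x = .t1
            · subst hx1
              simp [arithSubW]
            · simp [arithSubW, hx, hx1]
      · have hm : a - (b - (i + 1)) = 0 := by omega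
        have hm' : a - (b - i) = 0 := by omega
        have g1 := runs_nop (update (arithSubW S l a b (i + 1)) .t1
          (List.replicate i true ++ []))
        refine runs_conv (runs_ifTop_false ?_ g1) ?_ (by omega)
        · simp [arithSubW, hm, nm]
        · funext x
          by_cases hx : x = .ev
          · subst hx
            simp [arithSubW, hm, hm', nm]
          · by_cases hx1 : x = .t1
            · subst hx1
              simp [arithSubW]
            · simp [arithSubW, hx, hx1]
  have e0 : arithSubW S l a b b = update (update S .ev (false :: (nm a ++ l)).tail) .t1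
      (List.replicate b true ++ S .t1) := by
    funext x
    by_cases hx : x = .ev
    · subst hx
      simp [arithSubW]
    · by_cases hx1 : x = .t1
      · subst hx1
        simp [arithSubW, h1]
      · simp [arithSubW, hx, hx1]
  rw [e0] at r2
  refine runs_conv (runs_cons r1 (runs_cons r2 (runs_nil _))) ?_ (by omega)
  funext x
  by_cases hx : x = .ev
  · subst hx
    simp [arithSubW]
  · by_cases hx1 : x = .t1
    · subst hx1
      simp [arithSubW, h1]
    · simp [arithSubW, hx, hx1]

/-- the states of the loop of `ltc` -/
def arithLtW (S : Sk nv na) (l : List Bool) (a b i : ℕ) : Sk nv na :=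
  update (update (update S .ev l) .t1 (List.replicate (b - (a - i)) true)) .t2
    (List.replicate i true)

theorem runs_ltc {a b : ℕ} {l : List Bool} (h1 : S .t1 = []) (h2 : S .t2 = [])
    (h : S .ev = nm b ++ (nm a ++ l)) :
    RunsE ltc S (update S .ev (nm (if a < b then 1 else 0) ++ l)) (40 * (a + b) + 40) := by
  have r1 := runs_mv (k := .ev) (k' := .t1) (S := S) (by simp) b (false :: (nm a ++ l))
    (by simp) (by simp [h, nm])
  have r2 := runs_mv (k := .ev) (k' := .t2)
    (S := update (update S .ev (false :: (nm a ++ l)).tail) .t1 (List.replicate b true ++ S .t1))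
    (by simp) a (false :: l) (by simp) (by simp [nm])
  have e0 : update (update (update (update S .ev (false :: (nm a ++ l)).tail) .t1
      (List.replicate b true ++ S .t1)) .ev (false :: l).tail) .t2 (List.replicate a true ++
        (update (update S .ev (false :: (nm a ++ l)).tail) .t1
          (List.replicate b true ++ S .t1)) .t2) = arithLtW S l a b a := by
    funext x
    by_cases hx : x = .ev
    · subst hx
      simp [arithLtW]
    · by_cases hx1 : x = .t1
      · subst hx1
        simp [arithLtW, h1]
      · by_cases hx2 : x = .t2
        · subst hx2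
          simp [arithLtW, h2]
        · simp [arithLtW, hx, hx1, hx2]
  rw [e0] at r2
  have r3 : RunsE (whT .t2 (get .t1)) (arithLtW S l a b a)
      (update (arithLtW S l a b 0) .t2 []) (a * (1 + 3) + 3) := by
    refine runs_whT a (arithLtW S l a b) [] (by simp) ?_ ?_
    · intro i _
      simp [arithLtW]
    · intro i hi
      have g1 := runs_get .t1 (update (arithLtW S l a b (i + 1)) .t2
          (List.replicate i true ++ []))
      refine runs_conv g1 ?_ le_rfl
      have e1 : b - (a - i) = b - (a - (i + 1)) - 1 := by omega
      funext x
      by_cases hx : x = .t1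
      · subst hx
        simp [arithLtW, e1]
      · by_cases hx1 : x = .t2
        · subst hx1
          simp [arithLtW]
        · simp [arithLtW, hx, hx1]
  have r4 := runs_pushc .ev false (update (arithLtW S l a b 0) .t2 [])
  have hT : (update (update (arithLtW S l a b 0) .t2 []) K.ev
      (false :: (update (arithLtW S l a b 0) .t2 []) K.ev)) .t1 =
        List.replicate (b - a) true := by
    simp [arithLtW]
  have r5 : RunsE (ifTop .t1 (pushc .ev true) nop)
      (update (update (arithLtW S l a b 0) .t2 []) K.ev
        (false :: (update (arithLtW S l a b 0) .t2 []) K.ev))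
      (update (update (arithLtW S l a b 0) .t2 []) K.ev
        (nm (if a < b then 1 else 0) ++ l)) 4 := by
    by_cases hab : a < b
    · obtain ⟨m, hm⟩ : ∃ m, b - a = m + 1 := ⟨b - a - 1, by omega⟩
      refine runs_conv (runs_ifTop_true ?_ (runs_pushc .ev true _)) ?_ (by omega)
      · rw [hT, hm, List.replicate_succ]
        rfl
      · simp [hab, nm, arithLtW]
    · have hm : b - a = 0 := by omega
      refine runs_conv (runs_ifTop_false ?_ (runs_nop _)) ?_ (by omega)
      · rw [hT, hm]
        simp
      · simp [hab, nm, arithLtW]
  have r6 := runs_clr (k := .t1) (S := update (update (arithLtW S l a b 0) .t2 []) K.ev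
        (nm (if a < b then 1 else 0) ++ l)) (b - a) [] (by simp)
    (by simp [arithLtW])
  refine runs_conv (runs_cons r1 (runs_cons r2 (runs_cons r3 (runs_cons r4 (runs_cons r5
    (runs_cons r6 (runs_nil _))))))) ?_ (by omega)
  funext x
  by_cases hx : x = .ev
  · subst hx
    simp [arithLtW]
  · by_cases hx1 : x = .t1
    · subst hx1
      simp [arithLtW, h1]
    · by_cases hx2 : x = .t2
      · subst hx2
        simp [arithLtW, h2]
      · simp [arithLtW, hx, hx1, hx2]

theorem runs_lookup {k : K nv na} (hk : k ≠ .ev) (hk1 : k ≠ .t1) {j : ℕ} {l : List Bool}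
    (h1 : S .t1 = []) (h : S .ev = nm j ++ l) :
    RunsE (lookup k) S (update S .ev (nm (b2n ((S k).getD j false)) ++ l))
      (20 * (j + (S k).length) + 40) := by
  let W : ℕ → Sk nv na := fun m => update (update (update S .ev (List.replicate m true ++ false :: l)) .t1
    ((S k).take (j - m)).reverse) k ((S k).drop (j - m))
  have hW : ∀ m ≤ j, W m .ev = List.replicate m true ++ (false :: l) := by
    intro m _
    simp [W, Function.update_apply, Ne.symm hk]
  have hbody : ∀ m < j, RunsE (step1 k .t1)
      (update (W (m + 1)) .ev (List.replicate m true ++ (false :: l))) (W m) 4 := by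
    intro m hm
    have e : j - m = (j - (m + 1)) + 1 := by omega
    refine runs_conv (runs_step1 (k := k) (k' := .t1) hk1 _) ?_ le_rfl
    funext x
    by_cases hx : x = k
    · subst hx
      simp [W, Function.update_apply, hk, hk1, e]
    · by_cases hx1 : x = .t1
      · subst hx1
        simp [W, Function.update_apply, hk, hk1, e, hx, List.take_add_one]
        cases (S k)[j - (m + 1)]? <;> simp
      · simp [W, Function.update_apply, hx, hx1]
        split_ifs <;> simp
  have h0 : S = W j := by
    funext x
    by_cases hx : x = k
    · subst hx
      simp [W]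
    · simp [W, Function.update_apply, hx]
      split_ifs with h2 h3
      · subst h2; exact h1
      · subst h3; rw [h]; simp [nm]
      · rfl
  let S1 : Sk nv na := update (W 0) .ev l
  have hc : RunsE (ifTop k (pushc .ev true) nop) (update S1 .ev (false :: l))
      (update S1 .ev (nm (b2n ((S k).getD j false)) ++ l)) 4 := by
    by_cases hb : (S k).getD j false = true
    · have e1 : (update S1 .ev (false :: l) k).head? = some true := by
        simp [S1, W, Function.update_apply, hk]
        rw [List.getD_eq_getElem?_getD] at hb
        cases hq : (S k)[j]? with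
        | none => rw [hq] at hb; simp at hb
        | some b => rw [hq] at hb; simp at hb; rw [hb]
      refine runs_conv (runs_ifTop_true e1 (runs_pushc _ _ _)) ?_ le_rfl
      rw [hb]
      simp [b2n, nm, List.replicate]
    · have e1 : (update S1 .ev (false :: l) k).head? ≠ some true := by
        simp [S1, W, Function.update_apply, hk]
        intro hq
        apply hb
        rw [List.getD_eq_getElem?_getD, hq]
        rfl
      refine runs_conv (runs_ifTop_false e1 (runs_nop _)) ?_ le_rfl
      rw [Bool.not_eq_true] at hb
      rw [hb]
      simp [b2n, nm]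
  have hmv : RunsE (mva .t1 k) (update S1 .ev (nm (b2n ((S k).getD j false)) ++ l))
      (update S .ev (nm (b2n ((S k).getD j false)) ++ l)) (4 * (S k).length + 3) := by
    refine runs_conv (runs_mva (k := .t1) (k' := k) (Ne.symm hk1) _) ?_ ?_
    · funext x
      by_cases hx : x = k
      · subst hx
        simp [S1, W, Function.update_apply, hk, Ne.symm hk1]
      · by_cases hx1 : x = .t1
        · subst hx1
          simp [Function.update_apply, hx, h1]
        · simp [S1, W, Function.update_apply, hx, hx1]
          split_ifs <;> simp
    · simp [S1, W, Function.update_apply, Ne.symm hk1]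
  have hp : RunsE (pushc .ev false) (update (W 0) .ev (false :: l).tail)
      (update S1 .ev (false :: l)) 1 := by
    refine runs_conv (runs_pushc _ _ _) ?_ le_rfl
    simp [S1]
  have := runs_cons (runs_whT j W (false :: l) (by simp) hW hbody)
    (runs_cons hp (runs_cons hc (runs_cons hmv (runs_nil _))))
  rw [← h0] at this
  exact runs_conv this rfl (by omega)

theorem runs_fillX (i : Fin nv) {n : ℕ} (h1 : S .t1 = []) (h : S .sz = List.replicate n true) :
    RunsE (fillX i) S (update S (.X i) (List.replicate n true ++ S (.X i))) (20 * n + 20) := by
  let W : ℕ → Sk nv na := fun m => update (update (update S .sz (List.replicate m true)) .t1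
    (List.replicate (n - m) true)) (.X i) (List.replicate (n - m) true ++ S (.X i))
  have hW : ∀ m ≤ n, W m .sz = List.replicate m true ++ [] := by
    intro m _
    simp [W]
  have hbody : ∀ m < n, RunsE (seqs [pushc .t1 true, pushc (.X i) true])
      (update (W (m + 1)) .sz (List.replicate m true ++ [])) (W m) 5 := by
    intro m hm
    have e : n - m = (n - (m + 1)) + 1 := by omega
    refine runs_conv (runs_cons (runs_pushc _ _ _) (runs_cons (runs_pushc _ _ _) (runs_nil _)))
      ?_ (by norm_num)
    funext k
    cases k <;> simp [W, e, List.replicate_succ, Function.update_apply]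
    split_ifs <;> simp
  have h0 : S = W n := by
    funext k
    cases k <;> simp [W, h1, h, Function.update_apply]
    rintro rfl
    rfl
  have hmv : RunsE (mv .t1 .sz) (update (W 0) .sz ([] : List Bool).tail)
      (update S (.X i) (List.replicate n true ++ S (.X i))) (4 * n + 3) := by
    refine runs_conv (runs_mv (k := .t1) (k' := .sz) (by simp) n [] (by simp) ?_) ?_ le_rfl
    · simp [W]
    · funext k
      cases k <;> simp [W, h1, h, Function.update_apply]
  have := runs_cons (runs_whT n W [] (by simp) hW hbody) (runs_cons hmv (runs_nil _))
  rw [← h0] at this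
  exact runs_conv this rfl (by omega)

end Pool.Agent.helper81.LC
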