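import Pool.Agent.helper81.LC.Lang

/-!
# LC-1: rules for the basic commands

Costs: `Ev.seq` adds 1, one round of a while loop adds 1, its end costs 1, `ite` adds 1.
`runs_whT` is proved by induction on `j` for the while loop started with register `(W j k).head?` and
stack `k` equal to `(W j k).tail` (compare `Pool/Agent/helper22/LP/Each.lean`).
-/

set_option autoImplicit false

namespace Pool.Agent.helper81.LC

open Pool.Agent.helper64.LP (Cmd Ev)
open Function (update)

variable {nv na : ℕ} {c d : Cm nv na} {S S' S'' : Sk nv na} {t t' : ℕ}

theorem ev_push (k : K nv na) (f : Option Bool → Bool) (v : Option Bool) (S : Sk nv na) :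
    Ev (Cmd.push k f : Cm nv na) v S v (update S k (f v :: S k)) 1 :=
  Ev.push (Γ := fun _ : K nv na => Bool) k f v S

theorem ev_pop (k : K nv na) (f : Option Bool → Option Bool → Option Bool) (v : Option Bool)
    (S : Sk nv na) :
    Ev (Cmd.pop k f : Cm nv na) v S (f v (S k).head?) (update S k (S k).tail) 1 :=
  Ev.pop (Γ := fun _ : K nv na => Bool) k f v S

theorem ev_peek (k : K nv na) (f : Option Bool → Option Bool → Option Bool) (v : Option Bool)
    (S : Sk nv na) : Ev (Cmd.peek k f : Cm nv na) v S (f v (S k).head?) S 1 :=
  Ev.peek (Γ := fun _ : K nv na => Bool) k f v S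

theorem ev_load (f : Option Bool → Option Bool) (v : Option Bool) (S : Sk nv na) :
    Ev (Cmd.load f : Cm nv na) v S (f v) S 1 :=
  Ev.load (Γ := fun _ : K nv na => Bool) f v S

theorem runs_conv (h : RunsE c S S' t) (hS : S' = S'') (ht : t ≤ t') : RunsE c S S'' t' := by
  subst hS
  intro v
  obtain ⟨v', n, hn, hE⟩ := h v
  exact ⟨v', n, hn.trans ht, hE⟩

theorem runs_seq (h : RunsE c S S' t) (h' : RunsE d S' S'' t') :
    RunsE (.seq c d) S S'' (t + t' + 1) := by
  intro v
  obtain ⟨v', n, hn, hE⟩ := h v
  obtain ⟨v'', m, hm, hE'⟩ := h' v'
  exact ⟨v'', n + m + 1, by omega, Ev.seq _ _ _ _ _ _ _ _ _ _ hE hE'⟩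

theorem runs_nil (S : Sk nv na) : RunsE (seqs []) S S 1 := by
  intro v
  exact ⟨v, 1, le_rfl, ev_load id v S⟩

theorem runs_cons {cs : List (Cm nv na)} (h : RunsE c S S' t) (h' : RunsE (seqs cs) S' S'' t') :
    RunsE (seqs (c :: cs)) S S'' (t + t' + 1) := by
  exact runs_seq h h'

theorem runs_nop (S : Sk nv na) : RunsE nop S S 1 := by
  intro v
  exact ⟨v, 1, le_rfl, ev_load id v S⟩

theorem runs_pushc (k : K nv na) (b : Bool) (S : Sk nv na) :
    RunsE (pushc k b) S (update S k (b :: S k)) 1 := by
  intro v
  exact ⟨v, 1, le_rfl, ev_push k (fun _ => b) v S⟩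

theorem runs_get (k : K nv na) (S : Sk nv na) :
    RunsE (get k) S (update S k (S k).tail) 1 := by
  intro v
  exact ⟨(S k).head?, 1, le_rfl, ev_pop k (fun _ o => o) v S⟩

theorem runs_ifTop_true {k : K nv na} (hk : (S k).head? = some true) (h : RunsE c S S' t) :
    RunsE (ifTop k c d) S S' (t + 3) := by
  intro v
  obtain ⟨v', n, hn, hE⟩ := h (S k).head?
  refine ⟨v', 1 + (n + 1) + 1, by omega, ?_⟩
  exact Ev.seq _ _ _ _ _ _ _ _ _ _ (ev_peek k (fun _ o => o) v S)
    (Ev.ite_true _ _ _ _ _ _ _ _ (by rw [hk]; rfl) hE)

theorem runs_ifTop_false {k : K nv na} (hk : (S k).head? ≠ some true) (h : RunsE d S S' t) :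
    RunsE (ifTop k c d) S S' (t + 3) := by
  intro v
  obtain ⟨v', n, hn, hE⟩ := h (S k).head?
  refine ⟨v', 1 + (n + 1) + 1, by omega, ?_⟩
  exact Ev.seq _ _ _ _ _ _ _ _ _ _ (ev_peek k (fun _ o => o) v S)
    (Ev.ite_false _ _ _ _ _ _ _ _ (by simpa using hk) hE)

/-- THE LOOP RULE: `W i` is the state when `i` cells `true` remain. -/
theorem runs_whT {k : K nv na} (j : ℕ) (W : ℕ → Sk nv na) (tl : List Bool)
    (htl : tl.head? ≠ some true) (hk : ∀ i ≤ j, W i k = List.replicate i true ++ tl)
    (h : ∀ i < j, RunsE c (update (W (i + 1)) k (List.replicate i true ++ tl)) (W i) t) :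
    RunsE (whT k c) (W j) (update (W 0) k tl.tail) (j * (t + 3) + 3) := by
  have main : ∀ i ≤ j, RunsV (.whl (fun v => v == some true) (.seq c (get k))) (W i k).head?
      (update (W i) k (W i k).tail) (update (W 0) k tl.tail) (i * (t + 3) + 1) := by
    intro i
    induction i with
    | zero =>
      intro hi
      have h0 : W 0 k = tl := by simpa using hk 0 hi
      rw [h0]
      exact ⟨tl.head?, 1, by omega, Ev.whl_false _ _ _ _ (by simpa using htl)⟩
    | succ i ih =>
      intro hi
      obtain ⟨v', n, hn, hE⟩ := ih (by omega)
      have h1 : W (i + 1) k = List.replicate (i + 1) true ++ tl := hk (i + 1) hi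
      have h2 : (W (i + 1) k).head? = some true := by rw [h1]; rfl
      have h3 : (W (i + 1) k).tail = List.replicate i true ++ tl := by rw [h1]; rfl
      rw [h2, h3]
      obtain ⟨v1, n1, hn1, hE1⟩ := h i (by omega) (some true)
      have hE2 : Ev (get k) v1 (W i) (W i k).head? (update (W i) k (W i k).tail) 1 :=
        ev_pop k (fun _ o => o) v1 (W i)
      refine ⟨v', (n1 + 1 + 1) + n + 1, ?_, ?_⟩
      · have : (i + 1) * (t + 3) = i * (t + 3) + t + 3 := by ring
        omega
      · exact Ev.whl_true _ _ _ _ _ _ _ _ _ _ rfl (Ev.seq _ _ _ _ _ _ _ _ _ _ hE1 hE2) hE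
  intro v
  obtain ⟨v', n, hn, hE⟩ := main j le_rfl
  refine ⟨v', 1 + n + 1, by omega, ?_⟩
  exact Ev.seq _ _ _ _ _ _ _ _ _ _ (ev_pop k (fun _ o => o) v (W j)) hE

theorem runs_mv {k k' : K nv na} (hne : k ≠ k') (j : ℕ) (tl : List Bool)
    (htl : tl.head? ≠ some true) (hk : S k = List.replicate j true ++ tl) :
    RunsE (mv k k') S (update (update S k tl.tail) k' (List.replicate j true ++ S k'))
      (4 * j + 3) := by
  have h := runs_whT (c := pushc k' true) (t := 1) (k := k) j
    (fun i => update (update S k (List.replicate i true ++ tl)) k'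
      (List.replicate (j - i) true ++ S k')) tl htl
    (fun i _ => by
      rw [Function.update_of_ne hne, Function.update_self])
    (fun i hi => by
      refine runs_conv (runs_pushc k' true _) ?_ le_rfl
      have e : j - i = (j - (i + 1)) + 1 := by omega
      funext z
      by_cases h1 : z = k'
      · subst h1
        rw [Function.update_self, Function.update_self, Function.update_of_ne hne.symm,
          Function.update_self, e, List.replicate_succ, List.cons_append]
      · by_cases h2 : z = k
        · subst h2
          simp only [Function.update_of_ne h1, Function.update_self]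
        · simp only [Function.update_of_ne h1, Function.update_of_ne h2])
  have h0 : update (update S k (List.replicate j true ++ tl)) k'
      (List.replicate (j - j) true ++ S k') = S := by
    rw [← hk, Nat.sub_self, List.replicate_zero, List.nil_append, Function.update_eq_self,
      Function.update_eq_self]
  rw [h0] at h
  refine runs_conv h ?_ (by omega)
  funext z
  by_cases h1 : z = k'
  · subst h1
    simp [Function.update_of_ne hne.symm]
  · by_cases h2 : z = k
    · subst h2
      simp [Function.update_of_ne h1]
    · simp only [Function.update_of_ne h1, Function.update_of_ne h2]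

theorem runs_clr {k : K nv na} (j : ℕ) (tl : List Bool)
    (htl : tl.head? ≠ some true) (hk : S k = List.replicate j true ++ tl) :
    RunsE (clr k) S (update S k tl.tail) (4 * j + 3) := by
  have h := runs_whT (c := nop) (t := 1) (k := k) j
    (fun i => update S k (List.replicate i true ++ tl)) tl htl
    (fun i _ => by
      rw [Function.update_self])
    (fun i hi => by
      refine runs_conv (runs_nop _) ?_ le_rfl
      rw [Function.update_idem])
  rw [← hk, Function.update_eq_self] at h
  refine runs_conv h ?_ (by omega)
  rw [Function.update_idem]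

/-- the for-each rule: the cells of `a` have been treated, the cells of `b` remain -/
theorem runs_each {k : K nv na} (l : List Bool) (W : List Bool → List Bool → Sk nv na)
    (hk : ∀ a b, a ++ b = l → W a b k = b)
    (h : ∀ a y b, a ++ y :: b = l →
      RunsV c (some y) (update (W a (y :: b)) k b) (W (a ++ [y]) b) t) :
    RunsE (each k c) (W [] l) (W l []) (l.length * (t + 3) + 3) := by
  have main : ∀ (b a : List Bool), a ++ b = l →
      RunsV (.whl (fun v => v.isSome) (.seq c (get k))) b.head? (update (W a b) k b.tail)
        (W l []) (b.length * (t + 3) + 1) := by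
    intro b
    induction b with
    | nil =>
      intro a ha
      rw [List.append_nil] at ha
      subst ha
      have h1 : update (W a []) k [] = W a [] := by
        conv_rhs => rw [← Function.update_eq_self k (W a [])]
        rw [hk a [] (by simp)]
      simp only [List.head?_nil, List.tail_nil]
      rw [h1]
      exact ⟨none, 1, by omega, Ev.whl_false _ _ _ _ rfl⟩
    | cons y b ih =>
      intro a ha
      obtain ⟨v1, n1, hn1, hE1⟩ := h a y b ha
      obtain ⟨v', n, hn, hE⟩ := ih (a ++ [y]) (by simp [ha])
      have hE2 : Ev (get k) v1 (W (a ++ [y]) b) (W (a ++ [y]) b k).head?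
          (update (W (a ++ [y]) b) k (W (a ++ [y]) b k).tail) 1 :=
        ev_pop k (fun _ o => o) v1 (W (a ++ [y]) b)
      rw [hk (a ++ [y]) b (by simp [ha])] at hE2
      refine ⟨v', (n1 + 1 + 1) + n + 1, ?_, ?_⟩
      · have : (y :: b).length * (t + 3) = b.length * (t + 3) + t + 3 := by
          rw [List.length_cons]
          ring
        omega
      · simp only [List.head?_cons, List.tail_cons]
        exact Ev.whl_true _ _ _ _ _ _ _ _ _ _ rfl (Ev.seq _ _ _ _ _ _ _ _ _ _ hE1 hE2) hE
  intro v
  obtain ⟨v', n, hn, hE⟩ := main l [] rfl
  refine ⟨v', 1 + n + 1, by omega, ?_⟩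
  have hE2 : Ev (get k) v (W [] l) (W [] l k).head? (update (W [] l) k (W [] l k).tail) 1 :=
    ev_pop k (fun _ o => o) v (W [] l)
  rw [hk [] l rfl] at hE2
  exact Ev.seq _ _ _ _ _ _ _ _ _ _ hE2 hE

theorem runs_mva {k k' : K nv na} (hne : k ≠ k') (S : Sk nv na) :
    RunsE (mva k k') S (update (update S k []) k' ((S k).reverse ++ S k'))
      (4 * (S k).length + 3) := by
  have h := runs_each (c := pushr k') (t := 1) (k := k) (S k)
    (fun a b => update (update S k b) k' (a.reverse ++ S k'))
    (fun a b _ => by
      rw [Function.update_of_ne hne, Function.update_self])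
    (fun a y b _ => by
      refine ⟨some y, 1, le_rfl, ?_⟩
      have hE := ev_push k' (fun v : Option Bool => v.getD false) (some y)
        (update (update (update S k (y :: b)) k' (a.reverse ++ S k')) k b)
      have e : update (update (update (update S k (y :: b)) k' (a.reverse ++ S k')) k b) k'
          (y :: update (update (update S k (y :: b)) k' (a.reverse ++ S k')) k b k') =
          update (update S k b) k' ((a ++ [y]).reverse ++ S k') := by
        funext z
        by_cases h1 : z = k'
        · subst h1
          simp [Function.update_of_ne hne.symm]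
        · by_cases h2 : z = k
          · subst h2
            simp [Function.update_of_ne h1]
          · simp only [Function.update_of_ne h1, Function.update_of_ne h2]
      rw [← e]
      exact hE)
  simp only [List.reverse_nil, List.nil_append, Function.update_eq_self] at h
  exact runs_conv h rfl (by omega)

theorem runs_clra (k : K nv na) (S : Sk nv na) :
    RunsE (clra k) S (update S k []) (4 * (S k).length + 3) := by
  have h := runs_each (c := nop) (t := 1) (k := k) (S k)
    (fun _ b => update S k b)
    (fun a b _ => by
      rw [Function.update_self])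
    (fun a y b _ => by
      refine ⟨some y, 1, le_rfl, ?_⟩
      have hE := ev_load id (some y) (update (update S k (y :: b)) k b)
      rw [Function.update_idem] at hE
      rw [Function.update_idem]
      exact hE)
  simp only [Function.update_eq_self] at h
  exact runs_conv h rfl (by omega)

/-- move one cell if there is one -/
theorem runs_step1 {k k' : K nv na} (hne : k ≠ k') (S : Sk nv na) :
    RunsE (step1 k k') S (update (update S k (S k).tail) k' ((S k).head?.toList ++ S k')) 4 := by
  intro v
  have hE : Ev (get k) v S (S k).head? (update S k (S k).tail) 1 :=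
    ev_pop k (fun _ o => o) v S
  cases hh : (S k).head? with
  | none =>
    refine ⟨none, 1 + (1 + 1) + 1, by omega, ?_⟩
    rw [hh] at hE
    have e : update (update S k (S k).tail) k' ((none : Option Bool).toList ++ S k') =
        update S k (S k).tail := by
      have e1 : (none : Option Bool).toList ++ S k' = update S k (S k).tail k' := by
        rw [Function.update_of_ne hne.symm]
        rfl
      rw [e1, Function.update_eq_self]
    rw [e]
    exact Ev.seq _ _ _ _ _ _ _ _ _ _ hE
      (Ev.ite_false _ _ _ _ _ _ _ _ rfl (ev_load id none _))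
  | some y =>
    refine ⟨some y, 1 + (1 + 1) + 1, by omega, ?_⟩
    rw [hh] at hE
    have hE2 := ev_push k' (fun v : Option Bool => v.getD false) (some y)
      (update S k (S k).tail)
    have e : update (update S k (S k).tail) k' ((some y).getD false ::
        update S k (S k).tail k') =
        update (update S k (S k).tail) k' ((some y).toList ++ S k') := by
      rw [Function.update_of_ne hne.symm]
      rfl
    rw [← e]
    exact Ev.seq _ _ _ _ _ _ _ _ _ _ hE (Ev.ite_true _ _ _ _ _ _ _ _ rfl hE2)

/-- the first command of `initc` -/
theorem runs_each_inp (S : Sk nv na) :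
    RunsE (each .inp (seqs [pushr .t1, pushc .sz true])) S
      (update (update (update S .inp []) .t1 ((S .inp).reverse ++ S .t1)) .sz
        (List.replicate (S .inp).length true ++ S .sz)) (10 * (S .inp).length + 3) := by
  have h := runs_each (c := (seqs [pushr .t1, pushc .sz true] : Cm nv na)) (t := 5)
    (k := .inp) (S .inp)
    (fun a b => update (update (update S .inp b) .t1 (a.reverse ++ S .t1)) .sz
      (List.replicate a.length true ++ S .sz))
    (fun a b _ => by
      rw [Function.update_of_ne (by simp), Function.update_of_ne (by simp),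
        Function.update_self])
    (fun a y b _ => by
      refine ⟨some y, 1 + (1 + 1 + 1) + 1, by omega, ?_⟩
      have hE1 := ev_push (K.t1 : K nv na) (fun v : Option Bool => v.getD false) (some y)
        (update (update (update (update S .inp (y :: b)) .t1 (a.reverse ++ S .t1)) .sz
          (List.replicate a.length true ++ S .sz)) .inp b)
      have hE2 := ev_push (K.sz : K nv na) (fun _ : Option Bool => true) (some y)
        (update (update (update (update (update S .inp (y :: b)) .t1 (a.reverse ++ S .t1)) .sz
          (List.replicate a.length true ++ S .sz)) .inp b) .t1 ((some y).getD false ::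
          (update (update (update (update S .inp (y :: b)) .t1 (a.reverse ++ S .t1)) .sz
          (List.replicate a.length true ++ S .sz)) .inp b) .t1))
      have hE3 := Ev.seq _ _ _ _ _ _ _ _ _ _ hE1
        (Ev.seq _ _ _ _ _ _ _ _ _ _ hE2 (ev_load id _ _))
      refine (congrArg (fun z => Ev (seqs [pushr K.t1, pushc K.sz true] : Cm nv na) (some y) _
        (some y) z (1 + (1 + 1 + 1) + 1)) ?_).mp hE3
      funext z
      cases z <;> simp [List.replicate_succ])
  simp only [List.reverse_nil, List.nil_append, Function.update_eq_self, List.length_nil,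
    List.replicate_zero] at h
  exact runs_conv h rfl (by omega)

end Pool.Agent.helper81.LC
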