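import Pool.Agent.helper81.LC.Term

/-!
# LC-4: the code of a program is correct and polynomial

`runs_cP`: induction on `p`.
* `upd a i t`: the loop is `runs_whT` with
  `W x = repS w A (update ρ i x) (the bits number x, …, w.length - 1) (nm (ρ i) ++ l)`; afterwards
  `bb` holds `(List.range w.length).map f` where `f` is the new array; `mva .bb .t1`, `mva .t1 (.A a)`
  reverse twice.
* `loop i p`: the loop is `runs_whT` with `W x = repS w (A after the rounds w.length - 1, …, x)
  (update ρ i x) [] (nm (ρ i) ++ l)`.
-/

set_option autoImplicit false

namespace Pool.Agent.helper81.LC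

open Pool.Agent.helper64.LP (Cmd Ev)
open Function (update)

variable {nv na : ℕ}

private theorem enter (w : List Bool) (A : Fin na → ℕ → Bool) (ρ : Fin nv → ℕ) (b l : List Bool)
    (i : Fin nv) (hi : ρ i ≤ w.length) {cs : List (Cm nv na)} {S' : Sk nv na} {t : ℕ}
    (h : RunsE (seqs cs) (repS w A (update ρ i w.length) b (nm (ρ i) ++ l)) S' t) :
    RunsE (seqs (pushc .ev false :: mv (.X i) .ev :: fillX i :: cs)) (repS w A ρ b l) S'
      (24 * w.length + 27 + t) := by
  have h1 : RunsE (pushc .ev false) (repS w A ρ b l) (repS w A ρ b (false :: l)) 1 :=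
    runs_conv (runs_pushc .ev false (repS w A ρ b l)) (repS_ev w A ρ b l _) le_rfl
  have h2 : RunsE (mv (.X i) .ev) (repS w A ρ b (false :: l))
      (repS w A (update ρ i 0) b (nm (ρ i) ++ l)) (4 * w.length + 3) := by
    refine runs_conv (runs_mv (k := .X i) (k' := .ev) (by simp) (ρ i) [] (by simp)
      (by simp [repS])) ?_ (by omega)
    have e1 : update (repS w A ρ b (false :: l)) (.X i) (List.tail []) =
        repS w A (update ρ i 0) b (false :: l) := repS_X w A ρ b (false :: l) i 0
    rw [e1, repS_ev]
    congr 1
    simp [nm, repS]
  have h3 : RunsE (fillX i) (repS w A (update ρ i 0) b (nm (ρ i) ++ l))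
      (repS w A (update ρ i w.length) b (nm (ρ i) ++ l)) (20 * w.length + 20) := by
    refine runs_conv (runs_fillX i (n := w.length) rfl rfl) ?_ le_rfl
    have e2 : repS w A (update ρ i 0) b (nm (ρ i) ++ l) (.X i) = [] := by
      simp [repS]
    rw [e2, List.append_nil, repS_X, Function.update_idem]
  exact runs_conv (runs_cons h1 (runs_cons h2 (runs_cons h3 h))) rfl (by omega)

private theorem leave (w : List Bool) (A : Fin na → ℕ → Bool) (ρ : Fin nv → ℕ) (b l : List Bool)
    (i : Fin nv) (hi : ρ i ≤ w.length) :
    RunsE (mv .ev (.X i)) (repS w A (update ρ i 0) b (nm (ρ i) ++ l)) (repS w A ρ b l)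
      (4 * w.length + 3) := by
  refine runs_conv (runs_mv (k := .ev) (k' := .X i) (by simp) (ρ i) (false :: l) (by simp)
    (by simp [repS, nm])) ?_ (by omega)
  have e1 : update (repS w A (update ρ i 0) b (nm (ρ i) ++ l)) .ev (List.tail (false :: l)) =
      repS w A (update ρ i 0) b l := repS_ev w A _ b _ _
  have e2 : repS w A (update ρ i 0) b (nm (ρ i) ++ l) (.X i) = [] := by
    simp [repS]
  rw [e1, e2, List.append_nil, repS_X, Function.update_idem, Function.update_eq_self]

private theorem upd_le {w : List Bool} {ρ : Fin nv → ℕ} (h : ∀ i, ρ i ≤ w.length) (i : Fin nv)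
    {x : ℕ} (hx : x ≤ w.length) : ∀ j, update ρ i x j ≤ w.length := by
  intro j
  by_cases hj : j = i
  · subst hj; simpa using hx
  · rw [Function.update_of_ne hj]; exact h j

/-- the evaluation of a condition: clear the value -/
private theorem clr_ev (w : List Bool) (A : Fin na → ℕ → Bool) (ρ : Fin nv → ℕ) (b l : List Bool)
    (v : ℕ) : RunsE (clr .ev) (repS w A ρ b (nm v ++ l)) (repS w A ρ b l) (4 * v + 3) := by
  refine runs_conv (runs_clr (k := .ev) v (false :: l) (by simp) (by simp [repS, nm])) ?_ le_rfl
  exact repS_ev w A ρ b _ _

private theorem head_nm (w : List Bool) (A : Fin na → ℕ → Bool) (ρ : Fin nv → ℕ) (b l : List Bool)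
    (v : ℕ) : (repS w A ρ b (nm v ++ l) .ev).head? = some (decide (0 < v)) := by
  cases v with
  | zero => simp [repS, nm]
  | succ v => simp [repS, nm, List.replicate_succ]

/-- the arrays after `k` rounds of a loop -/
private def rds {α : Type} (f : ℕ → α → α) (n : ℕ) (a : α) : ℕ → α
  | 0 => a
  | k + 1 => f (n - (k + 1)) (rds f n a k)

private theorem down_rds {α : Type} (f : ℕ → α → α) (n : ℕ) (a : α) (k : ℕ) (hk : k ≤ n) :
    down f (n - k) (rds f n a k) = down f n a := by
  induction k with
  | zero => rfl
  | succ k ih =>
    have h1 : n - k = (n - (k + 1)) + 1 := by omega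
    rw [← ih (by omega), h1]
    rfl

theorem runs_cP (p : Pr nv na) : ∃ T : ℕ → ℕ, Pb T ∧
    ∀ (w : List Bool) (A : Fin na → ℕ → Bool) (ρ : Fin nv → ℕ) (l : List Bool),
      (∀ i, ρ i ≤ w.length) →
        RunsE (cP p) (repS w A ρ [] l) (repS w (run w p ρ A) ρ [] l) (T w.length) := by
  induction p with
  | skip => exact ⟨fun _ => 1, Pb.const 1, fun w A ρ l _ => runs_nop _⟩
  | upd a i t =>
    obtain ⟨T, B, hT, hB, H⟩ := runs_cT t
    refine ⟨fun n => n * (T n + 4 * B n + 20) + (50 * n + 60), ?_, ?_⟩
    · have hn := Pb.id
      have c := Pb.const
      exact (hn.mul ((hT.add ((c 4).mul hB)).add (c 20))).add (((c 50).mul hn).add (c 60))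
    · intro w A ρ l hρ
      set f : ℕ → Bool := fun x =>
        decide (x < w.length ∧ 0 < val w A (update ρ i x) t) with hf
      -- the loop
      have hbody : ∀ x < w.length, RunsE
          (seqs [cT t, ifTop .ev (pushc .bb true) (pushc .bb false), clr .ev])
          (repS w A (update ρ i x) ((List.range' (x + 1) (w.length - (x + 1))).map f)
            (nm (ρ i) ++ l))
          (repS w A (update ρ i x) ((List.range' x (w.length - x)).map f) (nm (ρ i) ++ l))
          (T w.length + (4 + (4 * B w.length + 3 + 1 + 1) + 1) + 1) := by
        intro x hx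
        obtain ⟨hv, hr⟩ := H w A (update ρ i x)
          ((List.range' (x + 1) (w.length - (x + 1))).map f) (nm (ρ i) ++ l) (upd_le hρ i hx.le)
        set v := val w A (update ρ i x) t with hvdef
        have e1 : (List.range' x (w.length - x)).map f =
            decide (0 < v) :: (List.range' (x + 1) (w.length - (x + 1))).map f := by
          have e2 : w.length - x = (w.length - (x + 1)) + 1 := by omega
          rw [e2, List.range'_succ, List.map_cons]
          congr 1
          rw [hf]
          simp only [hx, true_and]
          rfl
        have h2 : RunsE (ifTop .ev (pushc .bb true) (pushc .bb false))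
            (repS w A (update ρ i x) ((List.range' (x + 1) (w.length - (x + 1))).map f)
              (nm v ++ (nm (ρ i) ++ l)))
            (repS w A (update ρ i x) ((List.range' x (w.length - x)).map f)
              (nm v ++ (nm (ρ i) ++ l))) 4 := by
          have e3 : ∀ c : Bool, update (repS w A (update ρ i x)
              ((List.range' (x + 1) (w.length - (x + 1))).map f) (nm v ++ (nm (ρ i) ++ l))) .bb
              (c :: (repS w A (update ρ i x)
              ((List.range' (x + 1) (w.length - (x + 1))).map f) (nm v ++ (nm (ρ i) ++ l))) .bb) =
              repS w A (update ρ i x)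
              (c :: (List.range' (x + 1) (w.length - (x + 1))).map f)
                (nm v ++ (nm (ρ i) ++ l)) := by
            intro c
            funext k
            cases k <;> simp [update, repS]
          rw [e1]
          by_cases hv0 : 0 < v
          · refine runs_ifTop_true (by rw [head_nm]; simp [hv0]) ?_
            refine runs_conv (runs_pushc .bb true _) ?_ le_rfl
            rw [e3]
            simp [hv0]
          · refine runs_ifTop_false (by rw [head_nm]; simp [hv0]) ?_
            refine runs_conv (runs_pushc .bb false _) ?_ le_rfl
            rw [e3]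
            simp [hv0]
        have h3 := clr_ev w A (update ρ i x) ((List.range' x (w.length - x)).map f)
          (nm (ρ i) ++ l) v
        exact runs_conv (runs_cons hr (runs_cons h2 (runs_cons h3 (runs_nil _)))) rfl
          (by omega)
      have hloop : RunsE
          (whT (.X i) (seqs [cT t, ifTop .ev (pushc .bb true) (pushc .bb false), clr .ev]))
          (repS w A (update ρ i w.length) [] (nm (ρ i) ++ l))
          (repS w A (update ρ i 0) ((List.range w.length).map f) (nm (ρ i) ++ l))
          (w.length * (T w.length + 4 * B w.length + 20) + 3) := by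
        have h1 := runs_whT (k := K.X i) w.length
          (fun x => repS w A (update ρ i x) ((List.range' x (w.length - x)).map f)
            (nm (ρ i) ++ l)) [] (by simp) (fun x _ => by simp [repS]) (fun x hx => by
              have := hbody x hx
              rw [List.append_nil, repS_X, Function.update_idem]
              exact this)
        simp only [Nat.sub_self, List.range'_zero, List.map_nil, Nat.sub_zero] at h1
        refine runs_conv h1 ?_ (Nat.add_le_add_right (Nat.mul_le_mul_left _ (by omega)) 3)
        have e : update (repS w A (update ρ i 0) ((List.range' 0 w.length).map f)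
            (nm (ρ i) ++ l)) (.X i) (List.tail []) =
            repS w A (update (update ρ i 0) i 0) ((List.range' 0 w.length).map f)
            (nm (ρ i) ++ l) := repS_X _ _ _ _ _ _ 0
        rw [e, Function.update_idem, List.range_eq_range']
      have h5 := leave w A ρ ((List.range w.length).map f) l i (hρ i)
      have h6 := runs_clra (.A a) (repS w A ρ ((List.range w.length).map f) l)
      have h7 := runs_mva (k := .bb) (k' := .t1) (by simp)
        (update (repS w A ρ ((List.range w.length).map f) l) (.A a) [])
      have h8 := runs_mva (k := .t1) (k' := .A a) (by simp)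
        (update (update (update (repS w A ρ ((List.range w.length).map f) l) (.A a) []) .bb [])
          .t1 (((update (repS w A ρ ((List.range w.length).map f) l) (.A a) []) .bb).reverse ++
          (update (repS w A ρ ((List.range w.length).map f) l) (.A a) []) .t1))
      have h9 := runs_cons h8 (runs_nil _)
      have h10 := enter w A ρ [] l i (hρ i)
        (runs_cons hloop (runs_cons h5 (runs_cons h6 (runs_cons h7 h9))))
      refine runs_conv h10 ?_ ?_
      · funext k
        cases k with
        | A a' =>
          by_cases ha : a' = a
          · subst ha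
            simp [update, repS, run, hf]
          · simp [update, repS, run, hf, ha]
        | _ => simp [update, repS, run, hf]
      · simp [update, repS]
        omega
  | seq p q ihp ihq =>
    obtain ⟨Tp, hTp, Hp⟩ := ihp
    obtain ⟨Tq, hTq, Hq⟩ := ihq
    refine ⟨fun n => Tp n + (Tq n + 1 + 1) + 1, (hTp.add ((hTq.add (Pb.const 1)).add
      (Pb.const 1))).add (Pb.const 1), ?_⟩
    intro w A ρ l hρ
    exact runs_cons (Hp w A ρ l hρ) (runs_cons (Hq w _ ρ l hρ) (runs_nil _))
  | loop i p ih =>
    obtain ⟨T, hT, H⟩ := ih
    refine ⟨fun n => n * (T n + 3) + (50 * n + 60), ?_, ?_⟩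
    · have hn := Pb.id
      have c := Pb.const
      exact (hn.mul (hT.add (c 3))).add (((c 50).mul hn).add (c 60))
    · intro w A ρ l hρ
      set f : ℕ → (Fin na → ℕ → Bool) → (Fin na → ℕ → Bool) :=
        fun x A' => run w p (update ρ i x) A' with hf
      have hloop : RunsE (whT (.X i) (cP p))
          (repS w A (update ρ i w.length) [] (nm (ρ i) ++ l))
          (repS w (down f w.length A) (update ρ i 0) [] (nm (ρ i) ++ l))
          (w.length * (T w.length + 3) + 3) := by
        have h1 := runs_whT (k := K.X i) w.length
          (fun x => repS w (rds f w.length A (w.length - x)) (update ρ i x) []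
            (nm (ρ i) ++ l)) [] (by simp) (fun x _ => by simp [repS]) (fun x hx => by
              have := H w (rds f w.length A (w.length - (x + 1))) (update ρ i x)
                (nm (ρ i) ++ l) (upd_le hρ i hx.le)
              rw [List.append_nil, repS_X, Function.update_idem]
              have e1 : w.length - x = (w.length - (x + 1)) + 1 := by omega
              have e2 : rds f w.length A (w.length - x) =
                  run w p (update ρ i x) (rds f w.length A (w.length - (x + 1))) := by
                rw [e1]
                change f (w.length - (w.length - (x + 1) + 1)) _ = _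
                have e3 : w.length - (w.length - (x + 1) + 1) = x := by omega
                rw [e3]
              rw [e2]
              exact this)
        simp only [Nat.sub_self, Nat.sub_zero] at h1
        refine runs_conv h1 ?_ le_rfl
        have e : update (repS w (rds f w.length A w.length) (update ρ i 0) []
            (nm (ρ i) ++ l)) (.X i) (List.tail []) =
            repS w (rds f w.length A w.length) (update (update ρ i 0) i 0) []
            (nm (ρ i) ++ l) := repS_X _ _ _ _ _ _ 0
        have e4 := down_rds f w.length A w.length le_rfl
        rw [Nat.sub_self] at e4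
        rw [e, Function.update_idem, ← e4]
        rfl
      have h5 := leave w (down f w.length A) ρ [] l i (hρ i)
      have h6 := enter w A ρ [] l i (hρ i) (runs_cons hloop (runs_cons h5 (runs_nil _)))
      exact runs_conv h6 rfl (by dsimp only; omega)
  | ite t p q ihp ihq =>
    obtain ⟨T, B, hT, hB, H⟩ := runs_cT t
    obtain ⟨Tp, hTp, Hp⟩ := ihp
    obtain ⟨Tq, hTq, Hq⟩ := ihq
    refine ⟨fun n => T n + 4 * B n + Tp n + Tq n + 20, ?_, ?_⟩
    · have c := Pb.const
      exact (((hT.add ((c 4).mul hB)).add hTp).add hTq).add (c 20)
    · intro w A ρ l hρ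
      obtain ⟨hv, hr⟩ := H w A ρ [] l hρ
      set v := val w A ρ t with hvdef
      have h2 : RunsE (ifTop .ev (seqs [clr .ev, cP p]) (seqs [clr .ev, cP q]))
          (repS w A ρ [] (nm v ++ l)) (repS w (run w (.ite t p q) ρ A) ρ [] l)
          ((4 * B w.length + 3 + (Tp w.length + Tq w.length + 1 + 1) + 1) + 3) := by
        by_cases hv0 : 0 < v
        · have e : run w (.ite t p q) ρ A = run w p ρ A := by
            change (if 0 < val w A ρ t then run w p ρ A else run w q ρ A) = _
            rw [if_pos hv0]
          rw [e]
          refine runs_ifTop_true (by rw [head_nm]; simp [hv0]) ?_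
          exact runs_conv (runs_cons (clr_ev w A ρ [] l v) (runs_cons (Hp w A ρ l hρ)
            (runs_nil _))) rfl (by omega)
        · have e : run w (.ite t p q) ρ A = run w q ρ A := by
            change (if 0 < val w A ρ t then run w p ρ A else run w q ρ A) = _
            rw [if_neg hv0]
          rw [e]
          refine runs_ifTop_false (by rw [head_nm]; simp [hv0]) ?_
          exact runs_conv (runs_cons (clr_ev w A ρ [] l v) (runs_cons (Hq w A ρ l hρ)
            (runs_nil _))) rfl (by omega)
      exact runs_conv (runs_cons hr (runs_cons h2 (runs_nil _))) rfl (by dsimp only; omega)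

end Pool.Agent.helper81.LC
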