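import Pool.Agent.helper81.LC.Arith

/-!
# LC-3: polynomially bounded functions; the code of a term is correct and polynomial

`runs_cT`: induction on `t`.  For every constructor the new bounds `B`, `T` are sums and products of the
old ones, of `id` and of constants (`Pb.*`).  Use `repS_ev`, `repS_X` to recognise states.
* `arr`, `inp`: `runs_lookup` with `S k = (List.range w.length).map (A a)` (or `w`), `getD`.
* `sum i t`: save `X i` on `ev` (`runs_mv` with `tl = []`), `fillX`, the loop is `runs_whT` with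
  `W x = repS w A (update ρ i x) b (nm (∑ y in the last w.length - x values) ++ (nm (ρ i) ++ l))`,
  i.e. the partial sum is `∑ y ∈ Finset.Ico x w.length, val w A (update ρ i y) t`; the body is
  `cT t` (induction hypothesis for `update ρ i x`, `x ≤ w.length`) and `runs_addc`; at the end
  `update (W 0) (.X i) [] = W 0` and the saved value is restored.
-/

set_option autoImplicit false

namespace Pool.Agent.helper81.LC

open Pool.Agent.helper64.LP (Cmd Ev)
open Function (update)

theorem Pb.const (c : ℕ) : Pb fun _ => c := by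
  exact ⟨c, 0, fun n => by simp⟩

theorem Pb.id : Pb fun n => n := by
  exact ⟨1, 1, fun n => by rw [pow_one, one_mul]; exact Nat.le_succ n⟩

theorem Pb.add {f g : ℕ → ℕ} (hf : Pb f) (hg : Pb g) : Pb fun n => f n + g n := by
  obtain ⟨c, d, h⟩ := hf
  obtain ⟨c', d', h'⟩ := hg
  refine ⟨c + c', d + d', fun n => ?_⟩
  have h1 : (n + 1) ^ d ≤ (n + 1) ^ (d + d') := Nat.pow_le_pow_right (by omega) (by omega)
  have h2 : (n + 1) ^ d' ≤ (n + 1) ^ (d + d') := Nat.pow_le_pow_right (by omega) (by omega)
  calc f n + g n ≤ c * (n + 1) ^ d + c' * (n + 1) ^ d' := add_le_add (h n) (h' n)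
    _ ≤ c * (n + 1) ^ (d + d') + c' * (n + 1) ^ (d + d') :=
      add_le_add (Nat.mul_le_mul_left _ h1) (Nat.mul_le_mul_left _ h2)
    _ = (c + c') * (n + 1) ^ (d + d') := by ring

theorem Pb.mul {f g : ℕ → ℕ} (hf : Pb f) (hg : Pb g) : Pb fun n => f n * g n := by
  obtain ⟨c, d, h⟩ := hf
  obtain ⟨c', d', h'⟩ := hg
  refine ⟨c * c', d + d', fun n => ?_⟩
  calc f n * g n ≤ (c * (n + 1) ^ d) * (c' * (n + 1) ^ d') := Nat.mul_le_mul (h n) (h' n)
    _ = c * c' * (n + 1) ^ (d + d') := by rw [pow_add]; ring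

theorem Pb.mono {f g : ℕ → ℕ} (hf : Pb f) (h : ∀ n, g n ≤ f n) : Pb g := by
  obtain ⟨c, d, h'⟩ := hf
  exact ⟨c, d, fun n => (h n).trans (h' n)⟩

variable {nv na : ℕ}

theorem repS_ev (w : List Bool) (A : Fin na → ℕ → Bool) (ρ : Fin nv → ℕ) (b l l' : List Bool) :
    update (repS w A ρ b l) .ev l' = repS w A ρ b l' := by
  funext z
  cases z <;> simp [repS]

theorem repS_X (w : List Bool) (A : Fin na → ℕ → Bool) (ρ : Fin nv → ℕ) (b l : List Bool)
    (i : Fin nv) (x : ℕ) :
    update (repS w A ρ b l) (.X i) (List.replicate x true) = repS w A (update ρ i x) b l := by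
  funext z
  cases z with
  | X j =>
    by_cases h : j = i
    · subst h
      simp [repS]
    · rw [Function.update_of_ne (by simpa using h)]
      simp [repS, Function.update_of_ne h]
  | _ => simp [repS]

theorem repS_A (w : List Bool) (A : Fin na → ℕ → Bool) (ρ : Fin nv → ℕ) (b l : List Bool)
    (a : Fin na) (f : ℕ → Bool) :
    update (repS w A ρ b l) (.A a) ((List.range w.length).map f) =
      repS w (update A a f) ρ b l := by
  funext z
  cases z with
  | A j =>
    by_cases h : j = a
    · subst h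
      simp [repS]
    · rw [Function.update_of_ne (by simpa using h)]
      simp [repS, Function.update_of_ne h]
  | _ => simp [repS]

/-- a command which changes only `ev`, on a represented state -/
theorem conv_ev {c : Cm nv na} {w : List Bool} {A : Fin na → ℕ → Bool} {ρ : Fin nv → ℕ}
    {b l l' : List Bool} {t t' : ℕ}
    (h : RunsE c (repS w A ρ b l) (update (repS w A ρ b l) .ev l') t) (ht : t ≤ t') :
    RunsE c (repS w A ρ b l) (repS w A ρ b l') t' :=
  runs_conv h (repS_ev w A ρ b l l') ht

/-- the statement of `runs_cT` -/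
def TmOK (t : Tm nv na) : Prop := ∃ T B : ℕ → ℕ, Pb T ∧ Pb B ∧
    ∀ (w : List Bool) (A : Fin na → ℕ → Bool) (ρ : Fin nv → ℕ) (b l : List Bool),
      (∀ i, ρ i ≤ w.length) → val w A ρ t ≤ B w.length ∧
        RunsE (cT t) (repS w A ρ b l) (repS w A ρ b (nm (val w A ρ t) ++ l)) (T w.length)

theorem ok_bin {s t u : Tm nv na} {c : Cm nv na} {f : ℕ → ℕ → ℕ}
    (hu : cT u = seqs [cT s, cT t, c])
    (hv : ∀ w A ρ, val w A ρ u = f (val w A ρ s) (val w A ρ t))
    (hf : ∀ a b, f a b ≤ (a + 1) * (b + 1))
    (hc : ∀ (S : Sk nv na) (a b : ℕ) (l : List Bool), S .t1 = [] → S .t2 = [] → S .t3 = [] →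
      S .ev = nm b ++ (nm a ++ l) →
        RunsE c S (update S .ev (nm (f a b) ++ l)) (40 * ((a + 1) * (b + 1)) + 40))
    (hs : TmOK s) (ht : TmOK t) : TmOK u := by
  obtain ⟨T, B, hT, hB, h⟩ := hs
  obtain ⟨T', B', hT', hB', h'⟩ := ht
  refine ⟨fun n => T n + (T' n + ((40 * ((B n + 1) * (B' n + 1)) + 40) + 1 + 1) + 1) + 1,
    fun n => (B n + 1) * (B' n + 1), (by repeat first | assumption | exact Pb.const _ | exact Pb.id | apply Pb.add | apply Pb.mul), (by repeat first | assumption | exact Pb.const _ | exact Pb.id | apply Pb.add | apply Pb.mul), fun w A ρ b l hρ => ?_⟩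
  obtain ⟨h1, h2⟩ := h w A ρ b l hρ
  obtain ⟨h1', h2'⟩ := h' w A ρ b (nm (val w A ρ s) ++ l) hρ
  have hm := Nat.mul_le_mul (Nat.succ_le_succ h1) (Nat.succ_le_succ h1')
  simp only [Nat.succ_eq_add_one] at hm
  refine ⟨(hv w A ρ).trans_le ((hf _ _).trans hm), ?_⟩
  rw [hu, hv]
  refine runs_conv (runs_cons h2 (runs_cons h2' (runs_cons
    (conv_ev (hc _ _ _ l rfl rfl rfl rfl) le_rfl) (runs_nil _)))) rfl ?_
  beta_reduce
  omega

theorem ok_lookup {t u : Tm nv na} {k : K nv na} (hu : cT u = seqs [cT t, lookup k])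
    (hk : k ≠ .ev) (hk1 : k ≠ .t1)
    (hl : ∀ w A ρ b l, (repS (nv := nv) w A ρ b l k).length ≤ w.length)
    (hv : ∀ w A ρ b l, val w A ρ u = b2n ((repS w A ρ b l k).getD (val w A ρ t) false))
    (ht : TmOK t) : TmOK u := by
  obtain ⟨T, B, hT, hB, h⟩ := ht
  refine ⟨fun n => T n + ((20 * (B n + n) + 40) + 1 + 1) + 1, fun _ => 1, (by repeat first | assumption | exact Pb.const _ | exact Pb.id | apply Pb.add | apply Pb.mul), (by repeat first | assumption | exact Pb.const _ | exact Pb.id | apply Pb.add | apply Pb.mul),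
    fun w A ρ b l hρ => ?_⟩
  obtain ⟨h1, h2⟩ := h w A ρ b l hρ
  refine ⟨?_, ?_⟩
  · rw [hv w A ρ b l, b2n]
    beta_reduce
    split <;> omega
  · rw [hu, hv w A ρ b (nm (val w A ρ t) ++ l)]
    refine runs_conv (runs_cons h2 (runs_cons (conv_ev (runs_lookup hk hk1 rfl rfl) le_rfl)
      (runs_nil _))) rfl ?_
    have := hl w A ρ b (nm (val w A ρ t) ++ l)
    beta_reduce
    omega

theorem ok_sum (i : Fin nv) {t : Tm nv na} (ht : TmOK t) : TmOK (.sum i t) := by
  obtain ⟨T, B, hT, hB, h⟩ := ht
  refine ⟨fun n => 1 + ((4 * n + 3) + (1 + ((20 * n + 20) + ((n * ((T n + ((20 * (n * B n) + 20)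
      + 1 + 1) + 1) + 3) + 3) + ((4 * (n * B n) + 3) + ((4 * n + 3) + (1 + ((4 * (n * B n) + 3) + 1
      + 1) + 1) + 1) + 1) + 1) + 1) + 1) + 1) + 1,
    fun n => n * B n, (by repeat first | assumption | exact Pb.const _ | exact Pb.id | apply Pb.add | apply Pb.mul), (by repeat first | assumption | exact Pb.const _ | exact Pb.id | apply Pb.add | apply Pb.mul), fun w A ρ b l hρ => ?_⟩
  set n := w.length with hn
  have hup : ∀ x ≤ n, ∀ j, update ρ i x j ≤ n := by
    intro x hx j
    by_cases hj : j = i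
    · subst hj; simpa using hx
    · rw [Function.update_of_ne hj]; exact hρ j
  -- the partial sums
  let σ : ℕ → ℕ := fun x => ∑ y ∈ Finset.Ico x n, val w A (update ρ i y) t
  have hσ : ∀ x, σ x ≤ n * B n := by
    intro x
    calc σ x ≤ ∑ y ∈ Finset.Ico x n, B n :=
          Finset.sum_le_sum fun y hy =>
            (h w A (update ρ i y) [] [] (hup y (Finset.mem_Ico.1 hy).2.le)).1
      _ = (n - x) * B n := by simp
      _ ≤ n * B n := Nat.mul_le_mul_right _ (Nat.sub_le _ _)
  have hσ0 : val w A ρ (.sum i t) = σ 0 := by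
    simp only [val, σ, hn, Finset.range_eq_Ico]
  have hσ1 : ∀ x < n, σ (x + 1) + val w A (update ρ i x) t = σ x := by
    intro x hx
    simp only [σ]
    rw [Finset.sum_eq_sum_Ico_succ_bot hx, add_comm]
  refine ⟨hσ0 ▸ hσ 0, ?_⟩
  rw [hσ0]
  -- the states
  let W : ℕ → Sk nv na := fun x => repS w A (update ρ i x) b (nm (σ x) ++ (nm (ρ i) ++ l))
  have e1 : RunsE (pushc .ev false) (repS w A ρ b l) (repS w A ρ b (false :: l)) 1 :=
    conv_ev (runs_pushc _ _ _) le_rfl
  have e2 : RunsE (mv (.X i) .ev) (repS w A ρ b (false :: l))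
      (repS w A (update ρ i 0) b (nm (ρ i) ++ l)) (4 * n + 3) := by
    refine runs_conv (runs_mv (by simp) (ρ i) [] (by simp) (by simp [repS])) ?_ ?_
    · have e := repS_X w A ρ b (false :: l) i 0
      simp only [List.replicate_zero] at e
      rw [List.tail_nil, e, repS_ev]
      simp [repS, nm]
    · have := hρ i
      omega
  have e3 : RunsE (pushc .ev false) (repS w A (update ρ i 0) b (nm (ρ i) ++ l))
      (repS w A (update ρ i 0) b (nm (σ n) ++ (nm (ρ i) ++ l))) 1 := by
    refine conv_ev ?_ le_rfl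
    have : nm (σ n) ++ (nm (ρ i) ++ l) = false :: (nm (ρ i) ++ l) := by simp [σ, nm]
    rw [this]
    exact runs_pushc _ _ _
  have e4 : RunsE (fillX i) (repS w A (update ρ i 0) b (nm (σ n) ++ (nm (ρ i) ++ l))) (W n)
      (20 * n + 20) := by
    refine runs_conv (runs_fillX i rfl rfl) ?_ le_rfl
    have : List.replicate w.length true ++
        repS w A (update ρ i 0) b (nm (σ n) ++ (nm (ρ i) ++ l)) (.X i) =
        List.replicate w.length true := by simp [repS]
    rw [this, repS_X, Function.update_idem]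
  have e5 : RunsE (whT (.X i) (seqs [cT t, addc])) (W n)
      (repS w A (update ρ i 0) b (nm (σ 0) ++ (nm (ρ i) ++ l)))
      (n * ((T n + ((20 * (n * B n) + 20) + 1 + 1) + 1) + 3) + 3) := by
    refine runs_conv (runs_whT n W [] (by simp) (fun x _ => by simp [W, repS]) ?_) ?_ le_rfl
    · intro x hx
      have hs : update (W (x + 1)) (.X i) (List.replicate x true ++ []) =
          repS w A (update ρ i x) b (nm (σ (x + 1)) ++ (nm (ρ i) ++ l)) := by
        rw [List.append_nil]
        simp only [W]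
        rw [repS_X, Function.update_idem]
      rw [hs]
      have h3 : RunsE addc (repS w A (update ρ i x) b
          (nm (val w A (update ρ i x) t) ++ (nm (σ (x + 1)) ++ (nm (ρ i) ++ l)))) (W x)
          (20 * (n * B n) + 20) := by
        refine conv_ev (l' := nm (σ x) ++ (nm (ρ i) ++ l)) (t := 20 * σ x + 20) ?_ ?_
        · rw [← hσ1 x hx]
          exact runs_addc rfl rfl
        · have := hσ x
          omega
      have h4 := (h w A (update ρ i x) b (nm (σ (x + 1)) ++ (nm (ρ i) ++ l)) (hup x hx.le)).2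
      rw [← hn] at h4
      exact runs_conv (runs_cons h4 (runs_cons h3 (runs_nil _))) rfl le_rfl
    · simp only [W]
      have e := repS_X w A (update ρ i 0) b (nm (σ 0) ++ (nm (ρ i) ++ l)) i 0
      simp only [List.replicate_zero, Function.update_idem] at e
      simpa using e
  have e6 : RunsE (mv .ev .t1) (repS w A (update ρ i 0) b (nm (σ 0) ++ (nm (ρ i) ++ l)))
      (update (repS w A (update ρ i 0) b (nm (ρ i) ++ l)) .t1 (List.replicate (σ 0) true))
      (4 * (n * B n) + 3) := by
    refine runs_conv (runs_mv (by simp) (σ 0) (false :: (nm (ρ i) ++ l)) (by simp)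
      (by simp [repS, nm])) ?_ ?_
    · rw [List.tail_cons, repS_ev]
      simp [repS]
    · have := hσ 0
      omega
  have e7 : RunsE (mv .ev (.X i))
      (update (repS w A (update ρ i 0) b (nm (ρ i) ++ l)) .t1 (List.replicate (σ 0) true))
      (update (repS w A ρ b l) .t1 (List.replicate (σ 0) true)) (4 * n + 3) := by
    refine runs_conv (runs_mv (by simp) (ρ i) (false :: l) (by simp) (by simp [repS, nm])) ?_ ?_
    · funext k
      cases k with
      | X j =>
        by_cases hj : j = i
        · subst hj; simp [repS]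
        · simp [repS, hj]
      | _ => simp [repS]
    · have := hρ i
      omega
  have e8 : RunsE (pushc .ev false) (update (repS w A ρ b l) .t1 (List.replicate (σ 0) true))
      (update (repS w A ρ b (false :: l)) .t1 (List.replicate (σ 0) true)) 1 := by
    refine runs_conv (runs_pushc _ _ _) ?_ le_rfl
    funext k
    cases k <;> simp [repS]
  have e9 : RunsE (mv .t1 .ev)
      (update (repS w A ρ b (false :: l)) .t1 (List.replicate (σ 0) true))
      (repS w A ρ b (nm (σ 0) ++ l)) (4 * (n * B n) + 3) := by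
    refine runs_conv (runs_mv (by simp) (σ 0) [] (by simp) (by simp)) ?_ ?_
    · funext k
      cases k <;> simp [repS, nm]
    · have := hσ 0
      omega
  refine runs_conv (runs_cons e1 (runs_cons e2 (runs_cons e3 (runs_cons e4 (runs_cons e5
    (runs_cons e6 (runs_cons e7 (runs_cons e8 (runs_cons e9 (runs_nil _)))))))))) rfl ?_
  beta_reduce
  omega

theorem mul_succ_bound (a b : ℕ) : a + b + 1 ≤ (a + 1) * (b + 1) := by nlinarith [Nat.zero_le (a * b)]

theorem tmOK (t : Tm nv na) : TmOK t := by
  induction t with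
  | num c =>
    exact ⟨fun _ => 3 * c + 5, fun _ => c, Pb.const _, Pb.const _, fun w A ρ b l hρ =>
      ⟨le_refl _, conv_ev (runs_numc c _) le_rfl⟩⟩
  | size =>
    exact ⟨fun n => 20 * n + 20, fun n => n, (by repeat first | assumption | exact Pb.const _ | exact Pb.id | apply Pb.add | apply Pb.mul), Pb.id, fun w A ρ b l hρ =>
      ⟨le_refl _, conv_ev (runs_cpy (by simp) (by simp) rfl rfl) le_rfl⟩⟩
  | var i =>
    refine ⟨fun n => 20 * n + 20, fun n => n, (by repeat first | assumption | exact Pb.const _ | exact Pb.id | apply Pb.add | apply Pb.mul), Pb.id, fun w A ρ b l hρ =>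
      ⟨hρ i, conv_ev (runs_cpy (j := ρ i) (by simp) (by simp) rfl rfl) ?_⟩⟩
    have := hρ i
    beta_reduce
    omega
  | inp t ih =>
    exact ok_lookup (k := .inp) rfl (by simp) (by simp) (fun w A ρ b l => by simp [repS])
      (fun w A ρ b l => rfl) ih
  | arr a t ih =>
    refine ok_lookup (k := .A a) rfl (by simp) (by simp) (fun w A ρ b l => by simp [repS])
      (fun w A ρ b l => ?_) ih
    simp only [val, repS]
    congr 1
    by_cases hx : val w A ρ t < w.length
    · simp [hx]
    · simp [hx]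
  | add s t ihs iht =>
    refine ok_bin (f := fun a b => a + b) rfl (fun _ _ _ => rfl)
      (fun a b => (by omega : a + b ≤ a + b + 1).trans (mul_succ_bound a b)) ?_ ihs iht
    intro S a b l h1 h2 h3 h
    refine runs_conv (runs_addc h1 h) rfl ?_
    have := mul_succ_bound a b
    omega
  | mul s t ihs iht =>
    exact ok_bin (f := fun a b => a * b) rfl (fun _ _ _ => rfl)
      (fun a b => Nat.mul_le_mul (Nat.le_succ _) (Nat.le_succ _))
      (fun S a b l h1 h2 h3 h => runs_mulc h1 h2 h3 h) ihs iht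
  | sub s t ihs iht =>
    refine ok_bin (f := fun a b => a - b) rfl (fun _ _ _ => rfl)
      (fun a b => (by omega : a - b ≤ a + b + 1).trans (mul_succ_bound a b)) ?_ ihs iht
    intro S a b l h1 h2 h3 h
    refine runs_conv (runs_subc h1 h) rfl ?_
    have := mul_succ_bound a b
    omega
  | lt s t ihs iht =>
    refine ok_bin (f := fun a b => if a < b then 1 else 0) rfl (fun _ _ _ => rfl)
      (fun a b => ?_) ?_ ihs iht
    · have := mul_succ_bound a b
      split <;> omega
    · intro S a b l h1 h2 h3 h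
      refine runs_conv (runs_ltc h1 h2 h) rfl ?_
      have := mul_succ_bound a b
      omega
  | sum i t ih => exact ok_sum i ih

theorem runs_cT (t : Tm nv na) : ∃ T B : ℕ → ℕ, Pb T ∧ Pb B ∧
    ∀ (w : List Bool) (A : Fin na → ℕ → Bool) (ρ : Fin nv → ℕ) (b l : List Bool),
      (∀ i, ρ i ≤ w.length) → val w A ρ t ≤ B w.length ∧
        RunsE (cT t) (repS w A ρ b l) (repS w A ρ b (nm (val w A ρ t) ++ l)) (T w.length) :=
  tmOK t

end Pool.Agent.helper81.LC
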